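import Pool.Agent.Lib.MP_5f3cbe_lc.Sem

/-! The analytic meaning of the formula is non-admissibility. -/

namespace Pool.Agent.Lib.MP_5f3cbe_lc

open Complex Metric Set Filter Topology ComplexConjugate Real

/-- Nevanlinna characteristic -/
noncomputable def T (f : ℂ → ℂ) (r : ℝ) : ℝ := circleAverage (fun z => Real.posLog ‖f z‖) 0 r

theorem exists_entire_approx {u : ℂ → ℝ} {s : ℝ} (hs : 0 < s)
    (hu : ContinuousOn u (sphere 0 s)) :
    ∃ Q : ℂ → ℂ, Differentiable ℂ Q ∧ ∀ z ∈ sphere (0 : ℂ) s, |(Q z).re - u z| ≤ 1 := by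
  have : Fact (0 < (1 : ℝ)) := ⟨one_pos⟩
  have hmem : ∀ x : AddCircle (1 : ℝ), (s : ℂ) * fourier 1 x ∈ sphere (0 : ℂ) s := by
    intro x
    rw [mem_sphere_zero_iff_norm, norm_mul, fourier_apply, Circle.norm_coe]
    simp [abs_of_pos hs]
  let U : C(AddCircle (1 : ℝ), ℂ) := ⟨fun x => (u ((s : ℂ) * fourier 1 x) : ℂ),
    continuous_ofReal.comp (hu.comp_continuous (by fun_prop) hmem)⟩
  have hU : U ∈ (Submodule.span ℂ (range (@fourier 1))).topologicalClosure := by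
    rw [span_fourier_closure_eq_top]; trivial
  obtain ⟨g, hg, hgU⟩ := Metric.mem_closure_iff.mp hU 1 one_pos
  have hpow : ∀ (n : ℕ) (x : AddCircle (1 : ℝ)), fourier (n : ℤ) x = (fourier 1 x) ^ n := by
    intro n x
    induction n with
    | zero => simp
    | succ n ih => rw [Nat.cast_succ, fourier_add, ih, pow_succ]
  have key : ∀ g ∈ Submodule.span ℂ (range (@fourier 1)), ∃ Q₁ Q₂ : ℂ → ℂ,
      Differentiable ℂ Q₁ ∧ Differentiable ℂ Q₂ ∧
      ∀ x, g x = Q₁ (fourier 1 x) + conj (Q₂ (fourier 1 x)) := by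
    intro g hg
    induction hg using Submodule.span_induction with
    | mem g hg =>
      obtain ⟨n, rfl⟩ := hg
      obtain ⟨m, rfl | rfl⟩ := n.eq_nat_or_neg
      · exact ⟨fun z => z ^ m, fun _ => 0, by fun_prop, by fun_prop, fun x => by
          rw [hpow, map_zero, add_zero]⟩
      · exact ⟨fun _ => 0, fun z => z ^ m, by fun_prop, by fun_prop, fun x => by
          rw [fourier_neg, hpow, zero_add]⟩
    | zero => exact ⟨fun _ => 0, fun _ => 0, by fun_prop, by fun_prop, fun x => by simp⟩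
    | add g h _ _ hg hh =>
      obtain ⟨P₁, P₂, h1, h2, h3⟩ := hg
      obtain ⟨Q₁, Q₂, h4, h5, h6⟩ := hh
      exact ⟨fun z => P₁ z + Q₁ z, fun z => P₂ z + Q₂ z, by fun_prop, by fun_prop, fun x => by
        rw [ContinuousMap.add_apply, h3, h6, map_add]; ring⟩
    | smul c g _ hg =>
      obtain ⟨P₁, P₂, h1, h2, h3⟩ := hg
      exact ⟨fun z => c * P₁ z, fun z => conj c * P₂ z, by fun_prop, by fun_prop, fun x => by
        rw [ContinuousMap.smul_apply, h3, map_mul, conj_conj, smul_eq_mul]; ring⟩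
  obtain ⟨Q₁, Q₂, h1, h2, h3⟩ := key g hg
  refine ⟨fun z => Q₁ (z / s) + Q₂ (z / s), by fun_prop, fun z hz => ?_⟩
  have hs' : (s : ℂ) ≠ 0 := ofReal_ne_zero.mpr hs.ne'
  obtain ⟨x, hx⟩ : ∃ x : AddCircle (1 : ℝ), fourier 1 x = z / s := by
    have hn : ‖z / s‖ = 1 := by
      rw [norm_div, mem_sphere_zero_iff_norm.mp hz]
      simp [abs_of_pos hs, hs.ne']
    refine ⟨((arg (z / s) / (2 * π) : ℝ) : AddCircle (1 : ℝ)), ?_⟩
    rw [fourier_coe_apply]
    have h4 := norm_mul_exp_arg_mul_I (z / s)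
    rw [hn, ofReal_one, one_mul] at h4
    refine Eq.trans ?_ h4
    have : (π : ℂ) ≠ 0 := ofReal_ne_zero.mpr pi_ne_zero
    push_cast
    congr 1
    field_simp
  have h5 : dist (U x) (g x) ≤ 1 := ((ContinuousMap.dist_apply_le_dist x).trans hgU.le)
  have h6 : U x = u z := by
    change (u ((s : ℂ) * fourier 1 x) : ℂ) = u z
    rw [hx, mul_div_cancel₀ _ hs']
  rw [h6, h3, hx, dist_comm, dist_eq_norm] at h5
  refine le_trans (le_of_eq ?_) ((abs_re_le_norm _).trans h5)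
  simp

theorem continuousOn_posLog {f : ℂ → ℂ} (hf : DifferentiableOn ℂ f (ball 0 1)) {s : ℝ}
    (hs1 : s < 1) : ContinuousOn (fun z => Real.posLog ‖f z‖) (sphere 0 s) :=
  Real.continuous_posLog.comp_continuousOn
    (hf.continuousOn.mono (sphere_subset_closedBall.trans (closedBall_subset_ball hs1))).norm

theorem exists_majorant {f : ℂ → ℂ} (hf : DifferentiableOn ℂ f (ball 0 1)) {s : ℝ}
    (hs : 0 < s) (hs1 : s < 1) :
    ∃ G : ℂ → ℂ, Differentiable ℂ G ∧ (∀ p ∈ closedBall (0 : ℂ) s, 1 ≤ ‖G p‖ ∧ ‖f p‖ ≤ ‖G p‖) ∧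
      ‖G 0‖ ≤ Real.exp (T f s + 2) := by
  have hu := continuousOn_posLog hf hs1
  obtain ⟨Q, hQ, hQu⟩ := exists_entire_approx hs hu
  have hnorm : ∀ z, ‖cexp (Q z + 1)‖ = Real.exp ((Q z).re + 1) := by
    intro z
    rw [Complex.norm_exp]
    simp
  have hG : Differentiable ℂ (fun z => cexp (Q z + 1)) := by fun_prop
  have hmax : ∀ F : ℂ → ℂ, DifferentiableOn ℂ F (ball 0 1) →
      (∀ z ∈ sphere (0 : ℂ) s, ‖F z‖ ≤ Real.exp (Real.posLog ‖f z‖)) →
      ∀ p ∈ closedBall (0 : ℂ) s, ‖F p‖ ≤ ‖cexp (Q p + 1)‖ := by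
    intro F hF hb p hp
    have hd : DiffContOnCl ℂ (fun z => F z / cexp (Q z + 1)) (ball 0 s) :=
      ((hF.div hG.differentiableOn (fun z _ => Complex.exp_ne_zero _)).mono
        (closure_ball_subset_closedBall.trans (closedBall_subset_ball hs1))).diffContOnCl
    have := Complex.norm_le_of_forall_mem_frontier_norm_le (C := 1) (z := p) isBounded_ball hd
      (fun z hz => by
        rw [frontier_ball _ hs.ne'] at hz
        rw [norm_div, div_le_one (norm_pos_iff.mpr (Complex.exp_ne_zero _)), hnorm]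
        refine (hb z hz).trans (Real.exp_le_exp.mpr ?_)
        linarith [(abs_le.mp (hQu z hz)).1]) (by rwa [closure_ball _ hs.ne'])
    rwa [norm_div, div_le_one (norm_pos_iff.mpr (Complex.exp_ne_zero _))] at this
  refine ⟨fun z => cexp (Q z + 1), hG, fun p hp => ⟨?_, ?_⟩, ?_⟩
  · have := hmax (fun _ => 1) (differentiableOn_const _) (fun z _ => by
      rw [norm_one]; exact Real.one_le_exp Real.posLog_nonneg) p hp
    rwa [norm_one] at this
  · refine hmax f hf (fun z _ => ?_) p hp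
    rcases (norm_nonneg (f z)).eq_or_lt with h | h
    · rw [← h]; exact (Real.exp_pos _).le
    · conv_lhs => rw [← Real.exp_log h]
      exact Real.exp_le_exp.mpr (le_max_right _ _)
  · have h1 := AnalyticOnNhd.circleAverage_log_norm_of_ne_zero (R := s) (c := 0)
      (g := fun z => cexp (Q z + 1)) (fun z _ => hG.analyticAt z)
      (fun z _ => Complex.exp_ne_zero _)
    have hu' : ContinuousOn (fun z => Real.posLog ‖f z‖) (sphere 0 |s|) := by
      rwa [abs_of_pos hs]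
    have h2 : circleAverage (fun z => Real.log ‖cexp (Q z + 1)‖) 0 s ≤
        circleAverage (fun z => Real.posLog ‖f z‖ + 2) 0 s := by
      apply circleAverage_mono
      · apply ContinuousOn.circleIntegrable'
        simp only [hnorm, Real.log_exp]
        have := hQ.continuous
        fun_prop
      · exact (hu'.add continuousOn_const).circleIntegrable'
      · intro z hz
        rw [abs_of_pos hs] at hz
        rw [hnorm, Real.log_exp]
        linarith [(abs_le.mp (hQu z hz)).2]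
    rw [circleAverage_fun_add hu'.circleIntegrable' (circleIntegrable_const _ _ _),
      circleAverage_const, h1] at h2
    rw [← Real.exp_log (norm_pos_iff.mpr (Complex.exp_ne_zero (Q 0 + 1)))]
    exact Real.exp_le_exp.mpr h2

theorem nasem_of_bound {f : ℂ → ℂ} (hf : DifferentiableOn ℂ f (ball 0 1)) {r₁ : ℝ} {K : ℕ}
    (h0 : 0 < r₁) (h1 : r₁ < 1) (hT : ∀ r ∈ Ico r₁ 1, T f r ≤ K * Real.log (1 - r)⁻¹) :
    ∃ (y : ℂ → ℂ) (A : ℝ), DifferentiableOn ℂ y (ball 0 1) ∧ 0 ≤ A ∧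
      NAsem f (fun z => z) y 0 A := by
  set B : ℝ := Real.exp 2 / (1 - r₁) ^ K with hB
  have hr : 0 < 1 - r₁ := by linarith
  have hB1 : 1 ≤ B := by
    rw [hB, le_div_iff₀ (by positivity), one_mul]
    exact (pow_le_one₀ hr.le (by linarith)).trans (Real.one_le_exp (by norm_num))
  have hne : ∀ z ∈ ball (0 : ℂ) 1, (1 - z) ≠ 0 := by
    intro z hz h
    have : z = 1 := by linear_combination -h
    simp [this] at hz
  have hup : ∀ z ∈ ball (0 : ℂ) 1, ‖(B : ℂ) / (1 - z) ^ K‖ ≤ B / (1 - ‖z‖) ^ K := by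
    intro z hz
    rw [mem_ball_zero_iff] at hz
    rw [norm_div, norm_pow, Complex.norm_real, Real.norm_eq_abs, abs_of_pos (by linarith)]
    have h2 : 1 - ‖z‖ ≤ ‖1 - z‖ := by simpa using norm_sub_norm_le 1 z
    have h3 : 0 < 1 - ‖z‖ := by linarith
    gcongr
  have hreal : ∀ t : ℝ, t < 1 → ‖(B : ℂ) / (1 - (t : ℂ)) ^ K‖ = B / (1 - t) ^ K := by
    intro t ht
    have : (B : ℂ) / (1 - (t : ℂ)) ^ K = ((B / (1 - t) ^ K : ℝ) : ℂ) := by push_cast; rfl
    have h3 : 0 < 1 - t := by linarith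
    rw [this, Complex.norm_real, Real.norm_eq_abs, abs_of_pos (by positivity)]
  refine ⟨fun z => (B : ℂ) / (1 - z) ^ K, B * 2 ^ K, ?_, by positivity, ?_, ?_, ?_, ?_⟩
  · exact DifferentiableOn.div (by fun_prop) (by fun_prop) (fun z hz => pow_ne_zero _ (hne z hz))
  · exact fun p hp => (mem_ball_zero_iff.mp hp).le
  · intro p hp h2
    refine (hup p hp).trans ?_
    have h3 : 0 < 1 - ‖p‖ := by linarith
    rw [div_le_iff₀ (by positivity), mul_assoc, ← mul_pow]
    exact le_mul_of_one_le_right (by linarith) (one_le_pow₀ (by linarith))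
  · intro p hp
    have hp1 := mem_ball_zero_iff.mp hp
    have hp2 : ‖p‖ ^ 2 < 1 := by nlinarith [norm_nonneg p]
    have hn : ‖((‖p‖ ^ 2 : ℝ) : ℂ)‖ = ‖p‖ ^ 2 := by
      rw [Complex.norm_real, Real.norm_eq_abs, abs_of_nonneg (by positivity)]
    refine ⟨((‖p‖ ^ 2 : ℝ) : ℂ), by rwa [mem_ball_zero_iff, hn], hn.le, (hup p hp).trans ?_⟩
    rw [hreal _ hp2]
    have h3 : 0 < 1 - ‖p‖ := by linarith
    have h4 : 0 < 1 - ‖p‖ ^ 2 := by linarith
    have h5 : (1 - ‖p‖ ^ 2) ^ K ≤ (2 * (1 - ‖p‖)) ^ K :=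
      pow_le_pow_left₀ h4.le (by nlinarith) K
    rw [mul_pow] at h5
    rw [div_le_iff₀ (by positivity), ← mul_div_assoc, div_mul_eq_mul_div,
      le_div_iff₀ (by positivity)]
    calc B * (1 - ‖p‖ ^ 2) ^ K ≤ B * (2 ^ K * (1 - ‖p‖) ^ K) * 1 := by
          rw [mul_one]; gcongr
      _ ≤ B * (2 ^ K * (1 - ‖p‖) ^ K) * B := by gcongr
      _ = B * 2 ^ K * B * (1 - ‖p‖) ^ K := by ring
  · intro p₀ hp₀
    have hp1 := mem_ball_zero_iff.mp hp₀
    set s := max ‖p₀‖ r₁ with hs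
    have hs0 : 0 < s := h0.trans_le (le_max_right _ _)
    have hs1 : s < 1 := max_lt hp1 h1
    obtain ⟨G, hG, hG1, hG2⟩ := exists_majorant hf hs0 hs1
    have hn : ‖((‖p₀‖ : ℝ) : ℂ)‖ = ‖p₀‖ := by simp
    refine ⟨G, hG.differentiableOn, fun p _ hle => hG1 p
      (mem_closedBall_zero_iff.mpr (hle.trans (le_max_left _ _))), ((‖p₀‖ : ℝ) : ℂ),
      by rwa [mem_ball_zero_iff, hn], hn.le, hG2.trans ?_⟩
    rw [hreal _ hp1]
    have h2 := hT s ⟨le_max_right _ _, hs1⟩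
    have h3 : 0 < 1 - s := by linarith
    have h4 : 0 < 1 - ‖p₀‖ := by linarith
    have h5 : (1 - r₁) * (1 - ‖p₀‖) ≤ 1 - s := by
      rcases le_total ‖p₀‖ r₁ with h | h
      · rw [hs, max_eq_right h]; nlinarith [norm_nonneg p₀]
      · rw [hs, max_eq_left h]; nlinarith
    calc Real.exp (T f s + 2) ≤ Real.exp (K * Real.log (1 - s)⁻¹ + 2) :=
          Real.exp_le_exp.mpr (by linarith)
      _ = Real.exp 2 / (1 - s) ^ K := by
          rw [Real.exp_add, ← Real.log_pow, Real.exp_log (by positivity), inv_pow]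
          field_simp
      _ ≤ Real.exp 2 / ((1 - r₁) * (1 - ‖p₀‖)) ^ K := by gcongr
      _ = B / (1 - ‖p₀‖) ^ K := by rw [hB, mul_pow, div_div]

theorem harnack {f G : ℂ → ℂ} (hf : DifferentiableOn ℂ f (ball 0 1))
    (hG : DifferentiableOn ℂ G (ball 0 1)) {a : ℂ} {r : ℝ} (ha : ‖a‖ < r) (hr1 : r < 1)
    (h : ∀ p ∈ closedBall (0 : ℂ) r, 1 ≤ ‖G p‖ ∧ ‖f p‖ ≤ ‖G p‖) :
    (r - ‖a‖) / (r + ‖a‖) * T f r ≤ Real.log ‖G a‖ := by
  have hr0 : 0 < r := (norm_nonneg a).trans_lt ha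
  have hsub : closedBall (0 : ℂ) r ⊆ ball 0 1 := closedBall_subset_ball hr1
  have hne : ∀ p ∈ closedBall (0 : ℂ) r, G p ≠ 0 := fun p hp h0 => by
    have := (h p hp).1
    rw [h0, norm_zero] at this
    linarith
  have hharm : InnerProductSpace.HarmonicOnNhd (fun z => Real.log ‖G z‖) (closedBall 0 r) :=
    fun z hz => (hG.analyticAt (isOpen_ball.mem_nhds (hsub hz))).harmonicAt_log_norm (hne z hz)
  have ha' : a ∈ ball (0 : ℂ) r := mem_ball_zero_iff.mpr ha
  rw [← hharm.circleAverage_re_herglotzRieszKernel_smul ha', T, ← smul_eq_mul,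
    ← circleAverage_fun_smul]
  have hu' : ContinuousOn (fun z => Real.posLog ‖f z‖) (sphere 0 |r|) := by
    rw [abs_of_pos hr0]; exact continuousOn_posLog hf hr1
  apply circleAverage_mono
  · exact (hu'.const_smul ((r - ‖a‖) / (r + ‖a‖))).circleIntegrable'
  · apply ContinuousOn.circleIntegrable'
    apply ContinuousOn.smul
    · exact Complex.continuous_re.comp_continuousOn (continuousOn_herglotzRieszKernel_sphere ha')
    · rw [abs_of_pos hr0]
      exact ((hG.continuousOn.mono (sphere_subset_closedBall.trans hsub)).norm).log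
        (fun z hz => norm_ne_zero_iff.mpr (hne z (sphere_subset_closedBall hz)))
  · intro z hz
    rw [abs_of_pos hr0] at hz
    have h1 := le_re_herglotzRieszKernel hz ha'
    obtain ⟨h2, h3⟩ := h z (sphere_subset_closedBall hz)
    have h4 : Real.posLog ‖f z‖ ≤ Real.log ‖G z‖ := by
      rw [← Real.posLog_eq_log (by rw [abs_of_nonneg (norm_nonneg _)]; exact h2)]
      exact Real.posLog_le_posLog (norm_nonneg _) h3
    have h5 : 0 ≤ (r - ‖a‖) / (r + ‖a‖) := div_nonneg (by linarith) (by positivity)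
    simp only [sub_zero] at h1
    simp only [smul_eq_mul, Pi.smul_apply', Function.comp_apply, herglotzRieszKernel_def, sub_zero]
    exact mul_le_mul h1 h4 Real.posLog_nonneg (h5.trans h1)

theorem bound_of_nasem {f ζ y : ℂ → ℂ} {a : ℂ} {A : ℝ} (hf : DifferentiableOn ℂ f (ball 0 1))
    (hζ : DifferentiableOn ℂ ζ (ball 0 1)) (ha : a ∈ ball (0 : ℂ) 1) (hζa : ζ a = 0)
    (h : NAsem f ζ y a A) :
    ∃ C : ℝ, ∀ r ∈ Ioo ((1 + ‖a‖) / 2) 1, T f r ≤ C * (1 + Real.log (1 - r)⁻¹) := by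
  obtain ⟨h1, h2, h3, h4⟩ := h
  have ha1 := mem_ball_zero_iff.mp ha
  set A' := max A 1 with hA'
  have hA1 : 1 ≤ A' := le_max_right _ _
  have grow : ∀ k : ℕ, ∀ p ∈ ball (0 : ℂ) 1, 2 * ‖ζ p‖ ^ (2 ^ k) ≤ 1 → ‖y p‖ ≤ A' ^ (k + 1) := by
    intro k
    induction k with
    | zero =>
      intro p hp hle
      rw [zero_add, pow_one]
      exact (h2 p hp (by simpa using hle)).trans (le_max_left _ _)
    | succ k ih =>
      intro p hp hle
      obtain ⟨p', hp', h5, h6⟩ := h3 p hp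
      have h7 : ‖ζ p'‖ ^ (2 ^ k) ≤ ‖ζ p‖ ^ (2 ^ (k + 1)) := by
        rw [pow_succ', pow_mul]
        exact pow_le_pow_left₀ (norm_nonneg _) h5 _
      have h8 := ih p' hp' (by linarith)
      calc ‖y p‖ ≤ A * ‖y p'‖ := h6
        _ ≤ A' * A' ^ (k + 1) := by
          gcongr
          exact le_max_left _ _
        _ = A' ^ (k + 1 + 1) := by ring
  set c : ℝ := (1 - ‖a‖ ^ 2) / 8 with hc
  have hc0 : 0 < c := by rw [hc]; nlinarith [norm_nonneg a]
  have hc1 : c ≤ 1 := by rw [hc]; nlinarith [norm_nonneg a]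
  set κ : ℝ := (1 - ‖a‖) / 4 with hκ
  have hκ0 : 0 < κ := by rw [hκ]; linarith
  have hlogA : 0 ≤ Real.log A' := Real.log_nonneg hA1
  have hlogc : 0 ≤ Real.log c⁻¹ := Real.log_nonneg (one_le_inv_iff₀.mpr ⟨hc0, hc1⟩)
  refine ⟨Real.log A' * (2 + 2 * Real.log c⁻¹) / κ, fun r hr => ?_⟩
  obtain ⟨hr1, hr2⟩ := hr
  have hr0 : 0 < r := by linarith [norm_nonneg a]
  have hsub : closedBall (0 : ℂ) r ⊆ ball 0 1 := closedBall_subset_ball hr2
  obtain ⟨p₀, hp₀, hmax⟩ := (isCompact_closedBall (0 : ℂ) r).exists_isMaxOn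
    ⟨0, mem_closedBall_self hr0.le⟩ (hζ.continuousOn.mono hsub).norm
  obtain ⟨G, hG, h5, p', hp', h6, h7⟩ := h4 p₀ (hsub hp₀)
  have h8 := harnack hf hG (a := a) (r := r) (by linarith) hr2
    (fun p hp => h5 p (hsub hp) (hmax hp))
  have hδ0 : 0 < c * (1 - r) := mul_pos hc0 (by linarith)
  have hδ1 : c * (1 - r) ≤ 1 := by nlinarith
  have h9 : ‖ζ p'‖ ≤ 1 - c * (1 - r) := by
    have i1 := norm_le_norm_mob hζ h1 ha hζa (hsub hp₀)
    have i2 := one_sub_norm_mob ha (hsub hp₀)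
    have i3 := mem_closedBall_zero_iff.mp hp₀
    have i4 : c * (1 - r) ≤ c * (1 - ‖p₀‖) := by gcongr
    have i5 : c * (1 - ‖p₀‖) = (1 - ‖a‖ ^ 2) * (1 - ‖p₀‖) / 8 := by rw [hc]; ring
    linarith
  obtain ⟨n, hn1, hn2⟩ := exists_nat_pow_near (x := (c * (1 - r))⁻¹) (y := 2)
    (one_le_inv_iff₀.mpr ⟨hδ0, hδ1⟩) one_lt_two
  have h10 : 2 * ‖ζ p'‖ ^ (2 ^ (n + 1)) ≤ 1 := by
    have i1 : ‖ζ p'‖ ≤ Real.exp (-(c * (1 - r))) := by
      linarith [Real.add_one_le_exp (-(c * (1 - r)))]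
    have i2 : ‖ζ p'‖ ^ (2 ^ (n + 1)) ≤ Real.exp (-(c * (1 - r))) ^ (2 ^ (n + 1)) :=
      pow_le_pow_left₀ (norm_nonneg _) i1 _
    have i3 : Real.exp (-(c * (1 - r))) ^ (2 ^ (n + 1)) ≤ Real.exp (-1) := by
      rw [← Real.exp_nat_mul]
      apply Real.exp_le_exp.mpr
      rw [inv_lt_iff_one_lt_mul₀ hδ0] at hn2
      push_cast
      linarith
    have i4 : 2 * Real.exp (-1) ≤ 1 := by
      rw [Real.exp_neg, ← div_eq_mul_inv, div_le_one (Real.exp_pos 1)]
      linarith [Real.add_one_le_exp 1]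
    linarith
  have h11 := grow (n + 1) p' hp' h10
  have hGa : 1 ≤ ‖G a‖ := (h5 a ha (by rw [hζa, norm_zero]; exact norm_nonneg _)).1
  have h12 : Real.log ‖G a‖ ≤ (n + 2) * Real.log A' := by
    have := Real.log_le_log (by linarith) (h7.trans h11)
    rw [Real.log_pow] at this
    push_cast at this
    linarith
  have hL : 0 ≤ Real.log (1 - r)⁻¹ :=
    Real.log_nonneg (one_le_inv_iff₀.mpr ⟨by linarith, by linarith⟩)
  have h13 : (n : ℝ) ≤ 2 * (Real.log c⁻¹ + Real.log (1 - r)⁻¹) := by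
    have i1 := Real.log_le_log (by positivity) hn1
    rw [Real.log_pow, mul_inv, Real.log_mul (inv_pos.mpr hc0).ne'
      (inv_pos.mpr (by linarith)).ne'] at i1
    have i2 := Real.log_two_gt_d9
    have i3 : (0 : ℝ) ≤ n := Nat.cast_nonneg n
    nlinarith
  have hT0 : 0 ≤ T f r := circleAverage_nonneg_of_nonneg (fun _ _ => Real.posLog_nonneg)
  have h14 : κ ≤ (r - ‖a‖) / (r + ‖a‖) := by
    rw [le_div_iff₀ (by positivity), hκ]
    nlinarith [norm_nonneg a]
  have h15 : κ * T f r ≤ (n + 2) * Real.log A' :=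
    ((mul_le_mul_of_nonneg_right h14 hT0).trans h8).trans h12
  rw [div_mul_eq_mul_div, le_div_iff₀ hκ0]
  have h16 : (n : ℝ) + 2 ≤ (2 + 2 * Real.log c⁻¹) * (1 + Real.log (1 - r)⁻¹) := by
    nlinarith [mul_nonneg hlogc hL]
  nlinarith [mul_le_mul_of_nonneg_right h16 hlogA]

theorem na_iff (f : H) : NA f ↔
    Asymptotics.IsBigO (𝓝[<] (1 : ℝ)) (T f.1) (fun r : ℝ => Real.log (1 - r)⁻¹) := by
  have hT0 : ∀ r, 0 ≤ T f.1 r := fun r =>
    circleAverage_nonneg_of_nonneg (fun _ _ => Real.posLog_nonneg)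
  constructor
  · intro h
    obtain ⟨ζ, y, a, A, hζ, ha, hζa, hs⟩ := nasem_of_na h
    obtain ⟨C, hC⟩ := bound_of_nasem f.diff hζ ha hζa hs
    have ha1 := mem_ball_zero_iff.mp ha
    refine Asymptotics.IsBigO.of_bound (|C| * 3) ?_
    filter_upwards [Ioo_mem_nhdsLT (show (1 + ‖a‖) / 2 < 1 by linarith)] with r hr
    have h1 := hC r hr
    have h2 : Real.log 2 ≤ Real.log (1 - r)⁻¹ := by
      apply Real.log_le_log two_pos
      rw [le_inv_comm₀ two_pos (by linarith [hr.2])]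
      linarith [hr.1, norm_nonneg a]
    have h3 := Real.log_two_gt_d9
    rw [Real.norm_eq_abs, Real.norm_eq_abs, abs_of_nonneg (hT0 r),
      abs_of_pos (a := Real.log (1 - r)⁻¹) (by linarith)]
    have h4 : C * (1 + Real.log (1 - r)⁻¹) ≤ |C| * (1 + Real.log (1 - r)⁻¹) :=
      mul_le_mul_of_nonneg_right (le_abs_self C) (by linarith)
    have h5 : |C| * (1 + Real.log (1 - r)⁻¹) ≤ |C| * (3 * Real.log (1 - r)⁻¹) :=
      mul_le_mul_of_nonneg_left (by linarith) (abs_nonneg C)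
    linarith
  · intro h
    obtain ⟨C, hC⟩ := h.bound
    obtain ⟨l, hl, hsub⟩ := mem_nhdsLT_iff_exists_Ioo_subset.mp hC
    have hl1 : l < 1 := hl
    obtain ⟨r₁, hr₁, hr₂⟩ := exists_between (max_lt hl1 one_pos)
    obtain ⟨K, hK⟩ := exists_nat_ge C
    obtain ⟨y, A, hy, hA, hs⟩ := nasem_of_bound f.diff (K := K) (r₁ := r₁)
      ((le_max_right _ _).trans_lt hr₁) hr₂ (fun r hr => by
        have h0 : 0 < r := ((le_max_right _ _).trans_lt hr₁).trans_le hr.1
        have h1 : ‖T f.1 r‖ ≤ C * ‖Real.log (1 - r)⁻¹‖ :=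
          hsub ⟨((le_max_left _ _).trans_lt hr₁).trans_le hr.1, hr.2⟩
        have hL : 0 ≤ Real.log (1 - r)⁻¹ :=
          Real.log_nonneg (one_le_inv_iff₀.mpr ⟨by linarith [hr.2], by linarith⟩)
        rw [Real.norm_eq_abs, Real.norm_eq_abs, abs_of_nonneg (hT0 r), abs_of_nonneg hL] at h1
        exact h1.trans (mul_le_mul_of_nonneg_right hK hL))
    exact na_of_nasem hy hA hs

end Pool.Agent.Lib.MP_5f3cbe_lc
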