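import Mathlib

/-! A small calculus of parameter-free first-order definability in a commutative ring,
and the ring formulas used to define admissibility. -/

namespace Pool.Agent.Lib.MP_5f3cbe_lc

open FirstOrder FirstOrder.Language FirstOrder.Ring

section Calculus

variable {R : Type} [CommRing R] [CompatibleRing R]

/-- `t` is given by a term of the language of rings. -/
def DT {α : Type} (t : (α → R) → R) : Prop :=
  ∃ τ : Language.ring.Term α, ∀ v, τ.realize v = t v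

/-- `P` is given by a formula of the language of rings. -/
def DP {α : Type} (P : (α → R) → Prop) : Prop :=
  ∃ φ : Language.ring.Formula α, ∀ v, φ.Realize v ↔ P v

variable {α : Type}

theorem DT.var (i : α) : DT (fun v : α → R => v i) := ⟨Term.var i, fun _ => rfl⟩

theorem DT.zero : DT (fun _ : α → R => (0 : R)) := ⟨0, fun _ => by simp⟩

theorem DT.one : DT (fun _ : α → R => (1 : R)) := ⟨1, fun _ => by simp⟩

theorem DT.add {s t : (α → R) → R} (hs : DT s) (ht : DT t) : DT (fun v => s v + t v) := by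
  obtain ⟨σ, hσ⟩ := hs
  obtain ⟨τ, hτ⟩ := ht
  exact ⟨σ + τ, fun v => by simp [hσ, hτ]⟩

theorem DT.mul {s t : (α → R) → R} (hs : DT s) (ht : DT t) : DT (fun v => s v * t v) := by
  obtain ⟨σ, hσ⟩ := hs
  obtain ⟨τ, hτ⟩ := ht
  exact ⟨σ * τ, fun v => by simp [hσ, hτ]⟩

theorem DT.sub {s t : (α → R) → R} (hs : DT s) (ht : DT t) : DT (fun v => s v - t v) := by
  obtain ⟨σ, hσ⟩ := hs
  obtain ⟨τ, hτ⟩ := ht
  exact ⟨σ + -τ, fun v => by simp [hσ, hτ, sub_eq_add_neg]⟩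

theorem DP.eq {s t : (α → R) → R} (hs : DT s) (ht : DT t) : DP (fun v => s v = t v) := by
  obtain ⟨σ, hσ⟩ := hs
  obtain ⟨τ, hτ⟩ := ht
  exact ⟨σ.equal τ, fun v => by simp [hσ, hτ]⟩

theorem DP.not {P : (α → R) → Prop} (hP : DP P) : DP (fun v => ¬ P v) := by
  obtain ⟨φ, hφ⟩ := hP
  exact ⟨φ.not, fun v => by simp [hφ]⟩

theorem DP.and {P Q : (α → R) → Prop} (hP : DP P) (hQ : DP Q) : DP (fun v => P v ∧ Q v) := by
  obtain ⟨φ, hφ⟩ := hP
  obtain ⟨ψ, hψ⟩ := hQ
  exact ⟨φ ⊓ ψ, fun v => by simp [hφ, hψ]⟩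

theorem DP.imp {P Q : (α → R) → Prop} (hP : DP P) (hQ : DP Q) : DP (fun v => P v → Q v) := by
  obtain ⟨φ, hφ⟩ := hP
  obtain ⟨ψ, hψ⟩ := hQ
  exact ⟨φ.imp ψ, fun v => by simp [hφ, hψ]⟩

theorem DP.ex {P : (α → R) → R → Prop}
    (hP : DP (fun w : α ⊕ Unit → R => P (fun i => w (Sum.inl i)) (w (Sum.inr ())))) :
    DP (fun v => ∃ x, P v x) := by
  obtain ⟨φ, hφ⟩ := hP
  refine ⟨φ.iExs Unit, fun v => ?_⟩
  simp only [Formula.realize_iExs, hφ, Sum.elim_inl, Sum.elim_inr]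
  exact ⟨fun ⟨i, hi⟩ => ⟨i (), hi⟩, fun ⟨x, hx⟩ => ⟨fun _ => x, hx⟩⟩

theorem DP.all {P : (α → R) → R → Prop}
    (hP : DP (fun w : α ⊕ Unit → R => P (fun i => w (Sum.inl i)) (w (Sum.inr ())))) :
    DP (fun v => ∀ x, P v x) := by
  obtain ⟨φ, hφ⟩ := hP
  refine ⟨φ.iAlls Unit, fun v => ?_⟩
  simp only [Formula.realize_iAlls, hφ, Sum.elim_inl, Sum.elim_inr]
  exact ⟨fun h x => h (fun _ => x), fun h i => h (i ())⟩

theorem DP.subst {β : Type} {P : (β → R) → Prop} (hP : DP P) (t : β → (α → R) → R)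
    (ht : ∀ b, DT (t b)) : DP (fun v => P (fun b => t b v)) := by
  obtain ⟨φ, hφ⟩ := hP
  choose τ hτ using ht
  refine ⟨BoundedFormula.subst φ τ, fun v => ?_⟩
  beta_reduce
  rw [← hφ]
  unfold Formula.Realize
  rw [BoundedFormula.realize_subst]
  simp only [hτ]

theorem DP.of1 {Q : R → Prop} (h : DP (fun v : Fin 1 → R => Q (v 0))) {a : (α → R) → R}
    (ha : DT a) : DP (fun v => Q (a v)) :=
  h.subst (fun _ => a) (fun _ => ha)

theorem DP.of2 {Q : R → R → Prop} (h : DP (fun v : Fin 2 → R => Q (v 0) (v 1)))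
    {a b : (α → R) → R} (ha : DT a) (hb : DT b) : DP (fun v => Q (a v) (b v)) :=
  h.subst ![a, b] (fun i => by fin_cases i <;> simpa)

theorem DP.of4 {Q : R → R → R → R → Prop}
    (h : DP (fun v : Fin 4 → R => Q (v 0) (v 1) (v 2) (v 3)))
    {a b c d : (α → R) → R} (ha : DT a) (hb : DT b) (hc : DT c) (hd : DT d) :
    DP (fun v => Q (a v) (b v) (c v) (d v)) :=
  h.subst ![a, b, c, d] (fun i => by fin_cases i <;> simpa)

end Calculus

section Formulas

variable {R : Type} [CommRing R]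

/-- divisibility -/
def Dv (a b : R) : Prop := ∃ c, b = a * c

/-- unit -/
def Un (a : R) : Prop := ∃ c, a * c = 1

/-- `q` has exactly one zero, and it is simple. -/
def Pt (q : R) : Prop := ¬ Un q ∧ ∀ a, Dv a q → ¬ Un a → Dv q a

/-- `w` omits the values `0` and `1`. -/
def Omit (w : R) : Prop := Un w ∧ Un (w - 1)

/-- if the value of `y` at the point `q` is not `0` or `1`, the derivative of `y` vanishes there. -/
def Flat (q y : R) : Prop :=
  ∀ w, Omit w → Dv q (w - y) → ∃ w', Omit w' ∧ Dv (q * q) (w + w' - (y + y))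

/-- `y` is constant. -/
def Cst (y : R) : Prop := ∀ q, Pt q → Flat q y ∧ Flat q (y + 1 + 1)

/-- the constant `c` has modulus at most one. -/
def Small (c : R) : Prop :=
  ∀ q, Pt q → ∀ w, Omit w → Dv q (w + 1) → ∃ w', Omit w' ∧ Dv (q * q) (w' + 1 - c * (w + 1))

/-- the modulus of `g` at the point `q` is at most the modulus of `h` at the point `q'`. -/
def Le (g q h q' : R) : Prop :=
  ∃ d, ∃ e, Cst d ∧ Cst e ∧ Small e ∧ Dv q' (h - d) ∧ Dv q (g - e * d)

/-- the first-order form of non-admissibility. -/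
def NA (f : R) : Prop :=
  ∃ ζ, ∃ y, ∃ A, Pt ζ ∧ (∀ q, Pt q → Le ζ q 1 q) ∧ Cst A ∧
    (∀ q, Pt q → Le (ζ + ζ) q 1 q → Le y q A q) ∧
    (∀ q, Pt q → ∃ q', Pt q' ∧ Le ζ q' (ζ * ζ) q ∧ Le y q (A * y) q') ∧
    (∀ q₀, Pt q₀ → ∃ G, (∀ q, Pt q → Le ζ q ζ q₀ → Le 1 q G q ∧ Le f q G q) ∧
      ∃ q', Pt q' ∧ Le ζ q' ζ q₀ ∧ Le G ζ y q')

variable [CompatibleRing R] {α : Type}

theorem DP.dv {a b : (α → R) → R} (ha : DT a) (hb : DT b) : DP (fun v => Dv (a v) (b v)) := by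
  refine DP.of2 ?_ ha hb
  unfold Dv
  exact DP.ex (DP.eq (DT.var _) (DT.mul (DT.var _) (DT.var _)))

theorem DP.un {a : (α → R) → R} (ha : DT a) : DP (fun v => Un (a v)) := by
  refine DP.of1 ?_ ha
  unfold Un
  exact DP.ex (DP.eq (DT.mul (DT.var _) (DT.var _)) DT.one)

theorem DP.pt {a : (α → R) → R} (ha : DT a) : DP (fun v => Pt (a v)) := by
  refine DP.of1 ?_ ha
  unfold Pt
  exact DP.and (DP.not (DP.un (DT.var _))) (DP.all (DP.imp (DP.dv (DT.var _) (DT.var _))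
    (DP.imp (DP.not (DP.un (DT.var _))) (DP.dv (DT.var _) (DT.var _)))))

theorem DP.omit {a : (α → R) → R} (ha : DT a) : DP (fun v => Omit (a v)) := by
  unfold Omit
  exact DP.and (DP.un ha) (DP.un (DT.sub ha DT.one))

theorem DP.flat {a b : (α → R) → R} (ha : DT a) (hb : DT b) :
    DP (fun v => Flat (a v) (b v)) := by
  refine DP.of2 ?_ ha hb
  unfold Flat
  exact DP.all (DP.imp (DP.omit (DT.var _)) (DP.imp (DP.dv (DT.var _) (DT.sub (DT.var _) (DT.var _)))
    (DP.ex (DP.and (DP.omit (DT.var _)) (DP.dv (DT.mul (DT.var _) (DT.var _))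
      (DT.sub (DT.add (DT.var _) (DT.var _)) (DT.add (DT.var _) (DT.var _))))))))

theorem DP.cst {a : (α → R) → R} (ha : DT a) : DP (fun v => Cst (a v)) := by
  refine DP.of1 ?_ ha
  unfold Cst
  exact DP.all (DP.imp (DP.pt (DT.var _)) (DP.and (DP.flat (DT.var _) (DT.var _))
    (DP.flat (DT.var _) (DT.add (DT.add (DT.var _) DT.one) DT.one))))

theorem DP.small {a : (α → R) → R} (ha : DT a) : DP (fun v => Small (a v)) := by
  refine DP.of1 ?_ ha
  unfold Small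
  exact DP.all (DP.imp (DP.pt (DT.var _)) (DP.all (DP.imp (DP.omit (DT.var _))
    (DP.imp (DP.dv (DT.var _) (DT.add (DT.var _) DT.one))
    (DP.ex (DP.and (DP.omit (DT.var _)) (DP.dv (DT.mul (DT.var _) (DT.var _))
      (DT.sub (DT.add (DT.var _) DT.one) (DT.mul (DT.var _) (DT.add (DT.var _) DT.one))))))))))

theorem DP.le {a b c d : (α → R) → R} (ha : DT a) (hb : DT b) (hc : DT c) (hd : DT d) :
    DP (fun v => Le (a v) (b v) (c v) (d v)) := by
  refine DP.of4 ?_ ha hb hc hd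
  unfold Le
  exact DP.ex (DP.ex (DP.and (DP.cst (DT.var _)) (DP.and (DP.cst (DT.var _))
    (DP.and (DP.small (DT.var _)) (DP.and (DP.dv (DT.var _) (DT.sub (DT.var _) (DT.var _)))
      (DP.dv (DT.var _) (DT.sub (DT.var _) (DT.mul (DT.var _) (DT.var _)))))))))

theorem DP.na : DP (fun v : Fin 1 → R => NA (v 0)) := by
  unfold NA
  refine DP.ex (DP.ex (DP.ex (DP.and (DP.pt (DT.var _)) (DP.and ?_ (DP.and (DP.cst (DT.var _))
    (DP.and ?_ (DP.and ?_ ?_)))))))
  · exact DP.all (DP.imp (DP.pt (DT.var _)) (DP.le (DT.var _) (DT.var _) DT.one (DT.var _)))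
  · exact DP.all (DP.imp (DP.pt (DT.var _)) (DP.imp
      (DP.le (DT.add (DT.var _) (DT.var _)) (DT.var _) DT.one (DT.var _))
      (DP.le (DT.var _) (DT.var _) (DT.var _) (DT.var _))))
  · exact DP.all (DP.imp (DP.pt (DT.var _)) (DP.ex (DP.and (DP.pt (DT.var _)) (DP.and
      (DP.le (DT.var _) (DT.var _) (DT.mul (DT.var _) (DT.var _)) (DT.var _))
      (DP.le (DT.var _) (DT.var _) (DT.mul (DT.var _) (DT.var _)) (DT.var _))))))
  · exact DP.all (DP.imp (DP.pt (DT.var _)) (DP.ex (DP.and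
      (DP.all (DP.imp (DP.pt (DT.var _)) (DP.imp
        (DP.le (DT.var _) (DT.var _) (DT.var _) (DT.var _)) (DP.and
        (DP.le DT.one (DT.var _) (DT.var _) (DT.var _))
        (DP.le (DT.var _) (DT.var _) (DT.var _) (DT.var _))))))
      (DP.ex (DP.and (DP.pt (DT.var _)) (DP.and
        (DP.le (DT.var _) (DT.var _) (DT.var _) (DT.var _))
        (DP.le (DT.var _) (DT.var _) (DT.var _) (DT.var _))))))))

theorem exists_formula_not_na :
    ∃ φ : Language.ring.Formula (Fin 1), ∀ f : R, φ.Realize (fun _ => f) ↔ ¬ NA f := by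
  obtain ⟨φ, hφ⟩ := (DP.na (R := R)).not
  exact ⟨φ, fun f => hφ _⟩

end Formulas

end Pool.Agent.Lib.MP_5f3cbe_lc
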