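import Mathlib

/-! The language with symbols `0, 1, +, ·`, the ring of holomorphic functions on the unit disc,
the Nevanlinna characteristic and admissibility. -/

namespace Pool.Agent.Lib.MP_5f3cbe_lc.Hd

open FirstOrder

/-- the function symbols, indexed by their arity -/
inductive Sym : ℕ → Type
  | zero : Sym 0
  | one : Sym 0
  | add : Sym 2
  | mul : Sym 2

/-- the language of rings: function symbols `0, 1, +, ·`, no relation symbol besides equality -/
def LR : Language where
  Functions := Sym
  Relations := fun _ => Empty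

/-- a ring as a structure for the language of rings -/
@[reducible] def str (R : Type) [Ring R] : LR.Structure R where
  funMap := fun {n} s v =>
    match n, s, v with
    | _, .zero, _ => 0
    | _, .one, _ => 1
    | _, .add, v => v 0 + v 1
    | _, .mul, v => v 0 * v 1
  RelMap := fun r _ => r.elim

/-- extension by zero of a function on the open unit disc -/
noncomputable def ext0 (f : Metric.ball (0 : ℂ) 1 → ℂ) : ℂ → ℂ :=
  Function.extend Subtype.val f 0

theorem ext0_coe (f : Metric.ball (0 : ℂ) 1 → ℂ) {z : ℂ} (hz : z ∈ Metric.ball (0 : ℂ) 1) :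
    ext0 f z = f ⟨z, hz⟩ :=
  Subtype.val_injective.extend_apply f 0 ⟨z, hz⟩

/-- the ring of holomorphic functions on the open unit disc, with pointwise operations -/
def Hol : Subring (Metric.ball (0 : ℂ) 1 → ℂ) where
  carrier := {f | DifferentiableOn ℂ (ext0 f) (Metric.ball 0 1)}
  zero_mem' := (differentiableOn_const (0 : ℂ)).congr fun _ hz => ext0_coe _ hz
  one_mem' := (differentiableOn_const (1 : ℂ)).congr fun _ hz => ext0_coe _ hz
  add_mem' := fun {f g} hf hg => (DifferentiableOn.add hf hg).congr fun z hz => by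
    simp only [Pi.add_apply, ext0_coe _ hz]
  mul_mem' := fun {f g} hf hg => (DifferentiableOn.mul hf hg).congr fun z hz => by
    simp only [Pi.mul_apply, ext0_coe _ hz]
  neg_mem' := fun {f} hf => (DifferentiableOn.neg hf).congr fun z hz => by
    simp only [Pi.neg_apply, ext0_coe _ hz]

/-- the Nevanlinna characteristic `T(r, f)` -/
noncomputable def nev (r : ℝ) (f : Hol) : ℝ :=
  1 / (2 * Real.pi) * ∫ θ in (0 : ℝ)..(2 * Real.pi),
    max (Real.log ‖ext0 f.1 (r * Complex.exp (θ * Complex.I))‖) 0

/-- `limsup T(r,f) / log (1 / (1 - r)) = ∞` as `r` increases to `1` -/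
def Admissible (f : Hol) : Prop :=
  ∀ C r₀ : ℝ, r₀ < 1 → ∃ r : ℝ, r₀ < r ∧ 0 < r ∧ r < 1 ∧ C < nev r f / Real.log (1 / (1 - r))

end Pool.Agent.Lib.MP_5f3cbe_lc.Hd
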