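import Pool.Agent.Lib.MP_5f3cbe_lc.Anal
import Pool.Agent.Lib.MP_5f3cbe_lc.HDef

/-! The definability calculus without the negation symbol, and transfer to the ring `Hol`. -/

namespace Pool.Agent.Lib.MP_5f3cbe_lc.Hd

open FirstOrder FirstOrder.Language Metric Set Filter Topology

attribute [local instance] str

section Calculus

variable {R : Type} [CommRing R]

/-- `t` is given by a term of the language of rings. -/
def ET {α : Type} (t : (α → R) → R) : Prop :=
  ∃ τ : LR.Term α, ∀ v, τ.realize v = t v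

/-- `P` is given by a formula of the language of rings. -/
def EP {α : Type} (P : (α → R) → Prop) : Prop :=
  ∃ φ : LR.Formula α, ∀ v, φ.Realize v ↔ P v

variable {α : Type}

theorem ET.var (i : α) : ET (fun v : α → R => v i) := ⟨Term.var i, fun _ => rfl⟩

theorem ET.one : ET (fun _ : α → R => (1 : R)) :=
  ⟨Term.func (l := 0) Sym.one (fun i => i.elim0), fun _ => rfl⟩

theorem ET.add {s t : (α → R) → R} (hs : ET s) (ht : ET t) : ET (fun v => s v + t v) := by
  obtain ⟨σ, hσ⟩ := hs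
  obtain ⟨τ, hτ⟩ := ht
  refine ⟨Term.func (l := 2) Sym.add ![σ, τ], fun v => ?_⟩
  show σ.realize v + τ.realize v = _
  rw [hσ, hτ]

theorem ET.mul {s t : (α → R) → R} (hs : ET s) (ht : ET t) : ET (fun v => s v * t v) := by
  obtain ⟨σ, hσ⟩ := hs
  obtain ⟨τ, hτ⟩ := ht
  refine ⟨Term.func (l := 2) Sym.mul ![σ, τ], fun v => ?_⟩
  show σ.realize v * τ.realize v = _
  rw [hσ, hτ]

theorem EP.eq {s t : (α → R) → R} (hs : ET s) (ht : ET t) : EP (fun v => s v = t v) := by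
  obtain ⟨σ, hσ⟩ := hs
  obtain ⟨τ, hτ⟩ := ht
  exact ⟨σ.equal τ, fun v => by simp [hσ, hτ]⟩

theorem EP.not {P : (α → R) → Prop} (hP : EP P) : EP (fun v => ¬ P v) := by
  obtain ⟨φ, hφ⟩ := hP
  exact ⟨φ.not, fun v => by simp [hφ]⟩

theorem EP.and {P Q : (α → R) → Prop} (hP : EP P) (hQ : EP Q) : EP (fun v => P v ∧ Q v) := by
  obtain ⟨φ, hφ⟩ := hP
  obtain ⟨ψ, hψ⟩ := hQ
  exact ⟨φ ⊓ ψ, fun v => by simp [hφ, hψ]⟩

theorem EP.imp {P Q : (α → R) → Prop} (hP : EP P) (hQ : EP Q) : EP (fun v => P v → Q v) := by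
  obtain ⟨φ, hφ⟩ := hP
  obtain ⟨ψ, hψ⟩ := hQ
  exact ⟨φ.imp ψ, fun v => by simp [hφ, hψ]⟩

theorem EP.ex {P : (α → R) → R → Prop}
    (hP : EP (fun w : α ⊕ Unit → R => P (fun i => w (Sum.inl i)) (w (Sum.inr ())))) :
    EP (fun v => ∃ x, P v x) := by
  obtain ⟨φ, hφ⟩ := hP
  refine ⟨φ.iExs Unit, fun v => ?_⟩
  simp only [Formula.realize_iExs, hφ, Sum.elim_inl, Sum.elim_inr]
  exact ⟨fun ⟨i, hi⟩ => ⟨i (), hi⟩, fun ⟨x, hx⟩ => ⟨fun _ => x, hx⟩⟩

theorem EP.all {P : (α → R) → R → Prop}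
    (hP : EP (fun w : α ⊕ Unit → R => P (fun i => w (Sum.inl i)) (w (Sum.inr ())))) :
    EP (fun v => ∀ x, P v x) := by
  obtain ⟨φ, hφ⟩ := hP
  refine ⟨φ.iAlls Unit, fun v => ?_⟩
  simp only [Formula.realize_iAlls, hφ, Sum.elim_inl, Sum.elim_inr]
  exact ⟨fun h x => h (fun _ => x), fun h i => h (i ())⟩

theorem EP.subst {β : Type} {P : (β → R) → Prop} (hP : EP P) (t : β → (α → R) → R)
    (ht : ∀ b, ET (t b)) : EP (fun v => P (fun b => t b v)) := by
  obtain ⟨φ, hφ⟩ := hP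
  choose τ hτ using ht
  refine ⟨BoundedFormula.subst φ τ, fun v => ?_⟩
  beta_reduce
  rw [← hφ]
  unfold Formula.Realize
  rw [BoundedFormula.realize_subst]
  simp only [hτ]

theorem EP.of1 {Q : R → Prop} (h : EP (fun v : Fin 1 → R => Q (v 0))) {a : (α → R) → R}
    (ha : ET a) : EP (fun v => Q (a v)) :=
  h.subst (fun _ => a) (fun _ => ha)

theorem EP.of2 {Q : R → R → Prop} (h : EP (fun v : Fin 2 → R => Q (v 0) (v 1)))
    {a b : (α → R) → R} (ha : ET a) (hb : ET b) : EP (fun v => Q (a v) (b v)) :=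
  h.subst ![a, b] (fun i => by fin_cases i <;> simpa)

theorem EP.of4 {Q : R → R → R → R → Prop}
    (h : EP (fun v : Fin 4 → R => Q (v 0) (v 1) (v 2) (v 3)))
    {a b c d : (α → R) → R} (ha : ET a) (hb : ET b) (hc : ET c) (hd : ET d) :
    EP (fun v => Q (a v) (b v) (c v) (d v)) :=
  h.subst ![a, b, c, d] (fun i => by fin_cases i <;> simpa)

end Calculus

section Formulas

variable {R : Type} [CommRing R] {α : Type}

theorem EP.of3 {Q : R → R → R → Prop} (h : EP (fun v : Fin 3 → R => Q (v 0) (v 1) (v 2)))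
    {a b c : (α → R) → R} (ha : ET a) (hb : ET b) (hc : ET c) :
    EP (fun v => Q (a v) (b v) (c v)) :=
  h.subst ![a, b, c] (fun i => by fin_cases i <;> simpa)

theorem EP.dvs {a b c : (α → R) → R} (ha : ET a) (hb : ET b) (hc : ET c) :
    EP (fun v => Dv (a v) (b v - c v)) := by
  refine EP.of3 (Q := fun x y z => Dv x (y - z)) ?_ ha hb hc
  unfold Dv
  simp only [sub_eq_iff_eq_add]
  exact EP.ex (EP.eq (ET.var _) (ET.add (ET.mul (ET.var _) (ET.var _)) (ET.var _)))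

theorem EP.uns {a : (α → R) → R} (ha : ET a) : EP (fun v => Un (a v - 1)) := by
  refine EP.of1 (Q := fun x => Un (x - 1)) ?_ ha
  unfold Un
  simp only [sub_mul, one_mul, sub_eq_iff_eq_add]
  exact EP.ex (EP.eq (ET.mul (ET.var _) (ET.var _)) (ET.add ET.one (ET.var _)))

theorem EP.dv {a b : (α → R) → R} (ha : ET a) (hb : ET b) : EP (fun v => Dv (a v) (b v)) := by
  refine EP.of2 ?_ ha hb
  unfold Dv
  exact EP.ex (EP.eq (ET.var _) (ET.mul (ET.var _) (ET.var _)))

theorem EP.un {a : (α → R) → R} (ha : ET a) : EP (fun v => Un (a v)) := by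
  refine EP.of1 ?_ ha
  unfold Un
  exact EP.ex (EP.eq (ET.mul (ET.var _) (ET.var _)) ET.one)

theorem EP.pt {a : (α → R) → R} (ha : ET a) : EP (fun v => Pt (a v)) := by
  refine EP.of1 ?_ ha
  unfold Pt
  exact EP.and (EP.not (EP.un (ET.var _))) (EP.all (EP.imp (EP.dv (ET.var _) (ET.var _))
    (EP.imp (EP.not (EP.un (ET.var _))) (EP.dv (ET.var _) (ET.var _)))))

theorem EP.omit {a : (α → R) → R} (ha : ET a) : EP (fun v => Omit (a v)) := by
  unfold Omit
  exact EP.and (EP.un ha) (EP.uns ha)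

theorem EP.flat {a b : (α → R) → R} (ha : ET a) (hb : ET b) :
    EP (fun v => Flat (a v) (b v)) := by
  refine EP.of2 ?_ ha hb
  unfold Flat
  exact EP.all (EP.imp (EP.omit (ET.var _)) (EP.imp (EP.dvs (ET.var _) (ET.var _) (ET.var _))
    (EP.ex (EP.and (EP.omit (ET.var _)) (EP.dvs (ET.mul (ET.var _) (ET.var _))
      (ET.add (ET.var _) (ET.var _)) (ET.add (ET.var _) (ET.var _)))))))

theorem EP.cst {a : (α → R) → R} (ha : ET a) : EP (fun v => Cst (a v)) := by
  refine EP.of1 ?_ ha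
  unfold Cst
  exact EP.all (EP.imp (EP.pt (ET.var _)) (EP.and (EP.flat (ET.var _) (ET.var _))
    (EP.flat (ET.var _) (ET.add (ET.add (ET.var _) ET.one) ET.one))))

theorem EP.small {a : (α → R) → R} (ha : ET a) : EP (fun v => Small (a v)) := by
  refine EP.of1 ?_ ha
  unfold Small
  exact EP.all (EP.imp (EP.pt (ET.var _)) (EP.all (EP.imp (EP.omit (ET.var _))
    (EP.imp (EP.dv (ET.var _) (ET.add (ET.var _) ET.one))
    (EP.ex (EP.and (EP.omit (ET.var _)) (EP.dvs (ET.mul (ET.var _) (ET.var _))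
      (ET.add (ET.var _) ET.one) (ET.mul (ET.var _) (ET.add (ET.var _) ET.one)))))))))

theorem EP.le {a b c d : (α → R) → R} (ha : ET a) (hb : ET b) (hc : ET c) (hd : ET d) :
    EP (fun v => Le (a v) (b v) (c v) (d v)) := by
  refine EP.of4 ?_ ha hb hc hd
  unfold Le
  exact EP.ex (EP.ex (EP.and (EP.cst (ET.var _)) (EP.and (EP.cst (ET.var _))
    (EP.and (EP.small (ET.var _)) (EP.and (EP.dvs (ET.var _) (ET.var _) (ET.var _))
      (EP.dvs (ET.var _) (ET.var _) (ET.mul (ET.var _) (ET.var _))))))))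

theorem EP.na : EP (fun v : Fin 1 → R => NA (v 0)) := by
  unfold NA
  refine EP.ex (EP.ex (EP.ex (EP.and (EP.pt (ET.var _)) (EP.and ?_ (EP.and (EP.cst (ET.var _))
    (EP.and ?_ (EP.and ?_ ?_)))))))
  · exact EP.all (EP.imp (EP.pt (ET.var _)) (EP.le (ET.var _) (ET.var _) ET.one (ET.var _)))
  · exact EP.all (EP.imp (EP.pt (ET.var _)) (EP.imp
      (EP.le (ET.add (ET.var _) (ET.var _)) (ET.var _) ET.one (ET.var _))
      (EP.le (ET.var _) (ET.var _) (ET.var _) (ET.var _))))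
  · exact EP.all (EP.imp (EP.pt (ET.var _)) (EP.ex (EP.and (EP.pt (ET.var _)) (EP.and
      (EP.le (ET.var _) (ET.var _) (ET.mul (ET.var _) (ET.var _)) (ET.var _))
      (EP.le (ET.var _) (ET.var _) (ET.mul (ET.var _) (ET.var _)) (ET.var _))))))
  · exact EP.all (EP.imp (EP.pt (ET.var _)) (EP.ex (EP.and
      (EP.all (EP.imp (EP.pt (ET.var _)) (EP.imp
        (EP.le (ET.var _) (ET.var _) (ET.var _) (ET.var _)) (EP.and
        (EP.le ET.one (ET.var _) (ET.var _) (ET.var _))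
        (EP.le (ET.var _) (ET.var _) (ET.var _) (ET.var _))))))
      (EP.ex (EP.and (EP.pt (ET.var _)) (EP.and
        (EP.le (ET.var _) (ET.var _) (ET.var _) (ET.var _))
        (EP.le (ET.var _) (ET.var _) (ET.var _) (ET.var _))))))))

theorem exists_fml :
    ∃ φ : LR.Formula (Fin 1), ∀ f : R, φ.Realize (fun _ => f) ↔ ¬ NA f := by
  obtain ⟨φ, hφ⟩ := (EP.na (R := R)).not
  exact ⟨φ, fun f => hφ _⟩

end Formulas

/-- a ring isomorphism as an isomorphism of structures -/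
def eqv {R S : Type} [Ring R] [Ring S] (e : R ≃+* S) : LR.Equiv R S where
  toEquiv := e.toEquiv
  map_fun' := fun {n} s v => by
    match n, s, v with
    | _, .zero, _ => exact e.map_zero
    | _, .one, _ => exact e.map_one
    | _, .add, v => exact e.map_add _ _
    | _, .mul, v => exact e.map_mul _ _
  map_rel' := fun r _ => r.elim

/-- restriction to the disc -/
noncomputable def res : H →+* Hol where
  toFun f := ⟨fun z => f.1 z, f.diff.congr fun _ hz => ext0_coe _ hz⟩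
  map_zero' := rfl
  map_one' := rfl
  map_add' _ _ := rfl
  map_mul' _ _ := rfl

theorem res_bij : Function.Bijective res := by
  constructor
  · intro f g h
    exact H.ext' fun z hz => congrFun (congrArg Subtype.val h) ⟨z, hz⟩
  · intro f
    obtain ⟨g, hg⟩ := exists_H f.2
    refine ⟨g, Subtype.ext (funext fun z => ?_)⟩
    exact (hg z z.2).trans (ext0_coe _ z.2)

theorem nev_res (g : H) {r : ℝ} (h0 : 0 < r) (h1 : r < 1) : nev r (res g) = T g.1 r := by
  simp only [nev, T, Real.circleAverage, circleMap, zero_add, smul_eq_mul, one_div]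
  congr 2
  funext θ
  have hz : ((r : ℂ) * Complex.exp (θ * Complex.I)) ∈ ball (0 : ℂ) 1 := by
    rw [mem_ball_zero_iff, norm_mul, Complex.norm_exp_ofReal_mul_I, mul_one, Complex.norm_real,
      Real.norm_eq_abs, abs_of_pos h0]
    exact h1
  rw [ext0_coe _ hz, Real.posLog_def, max_comm]
  rfl

theorem adm_iff (g : H) : Admissible (res g) ↔ ¬ NA g := by
  rw [na_iff]
  have hT0 : ∀ r, 0 ≤ T g.1 r := fun r =>
    Real.circleAverage_nonneg_of_nonneg (fun _ _ => Real.posLog_nonneg)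
  have hL : ∀ r : ℝ, 0 < r → r < 1 → 0 < Real.log (1 - r)⁻¹ := fun r h0 h1 =>
    Real.log_pos ((one_lt_inv₀ (by linarith)).mpr (by linarith))
  constructor
  · intro hA h
    obtain ⟨C, hC⟩ := h.bound
    obtain ⟨l, hl, hsub⟩ := mem_nhdsLT_iff_exists_Ioo_subset.mp hC
    obtain ⟨r, hr, h0, h1, hlt⟩ := hA C l hl
    have h2 : ‖T g.1 r‖ ≤ C * ‖Real.log (1 - r)⁻¹‖ := hsub ⟨hr, h1⟩
    rw [Real.norm_eq_abs, Real.norm_eq_abs, abs_of_nonneg (hT0 r), abs_of_pos (hL r h0 h1)] at h2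
    rw [nev_res g h0 h1, one_div, lt_div_iff₀ (hL r h0 h1)] at hlt
    linarith
  · intro h C r₀ hr₀
    by_contra hn
    apply h
    refine Asymptotics.IsBigO.of_bound C ?_
    filter_upwards [Ioo_mem_nhdsLT (max_lt hr₀ one_pos)] with r hr
    have h0 : 0 < r := (le_max_right _ _).trans_lt hr.1
    rw [Real.norm_eq_abs, Real.norm_eq_abs, abs_of_nonneg (hT0 r), abs_of_pos (hL r h0 hr.2)]
    by_contra hlt
    apply hn
    refine ⟨r, (le_max_left _ _).trans_lt hr.1, h0, hr.2, ?_⟩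
    rw [nev_res g h0 hr.2, one_div, lt_div_iff₀ (hL r h0 hr.2)]
    linarith

theorem main : ∃ φ : LR.Formula (Fin 1), ∀ f : Hol, φ.Realize (fun _ => f) ↔ Admissible f := by
  obtain ⟨φ, hφ⟩ := exists_fml (R := H)
  refine ⟨φ, fun f => ?_⟩
  obtain ⟨g, rfl⟩ := res_bij.2 f
  rw [adm_iff, ← hφ g]
  exact StrongHomClass.realize_formula (eqv (RingEquiv.ofBijective res res_bij)) φ
    (v := fun _ => g)

end Pool.Agent.Lib.MP_5f3cbe_lc.Hd
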