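import Mathlib

/-! Bloch's and Landau's theorems, in the weak quantitative forms that we need. -/

namespace Pool.Agent.Lib.MP_5f3cbe_lc

open Complex Metric Set Filter Topology

/-- holomorphic logarithm on a disc with prescribed value at a point -/
theorem exists_log {w : ℂ → ℂ} {c : ℂ} {r : ℝ} (hw : DifferentiableOn ℂ w (ball c r))
    (h0 : ∀ z ∈ ball c r, w z ≠ 0) {p L : ℂ} (hp : p ∈ ball c r) (hL : exp L = w p) :
    ∃ g : ℂ → ℂ, DifferentiableOn ℂ g (ball c r) ∧ g p = L ∧ ∀ z ∈ ball c r, exp (g z) = w z := by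
  have hd : DifferentiableOn ℂ (fun z => deriv w z / w z) (ball c r) :=
    (hw.deriv isOpen_ball).div hw h0
  obtain ⟨g, hgp, hg⟩ := hd.isExactOn_ball.with_val_at p L
  have hgd : DifferentiableOn ℂ g (ball c r) := fun z hz =>
    (hg z hz).differentiableAt.differentiableWithinAt
  refine ⟨g, hgd, hgp, fun z hz => ?_⟩
  have key : ∀ x ∈ ball c r, HasDerivAt (fun z => w z * exp (-g z)) 0 x := by
    intro x hx
    have h1 : HasDerivAt w (deriv w x) x :=
      (hw.differentiableAt (isOpen_ball.mem_nhds hx)).hasDerivAt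
    have h2 := h1.fun_mul (hg x hx).fun_neg.cexp
    refine h2.congr_deriv ?_
    have := h0 x hx
    field_simp
    ring
  have hc : w z * exp (-g z) = w p * exp (-g p) :=
    isOpen_ball.is_const_of_deriv_eq_zero (convex_ball c r).isPreconnected
      (fun x hx => (key x hx).differentiableAt.differentiableWithinAt)
      (fun x hx => (key x hx).deriv) hz hp
  rw [hgp, ← hL, ← exp_add, add_neg_cancel, exp_zero, exp_neg] at hc
  have := exp_ne_zero (g z)
  field_simp at hc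
  exact hc.symm

/-- local form of Bloch's argument -/
theorem ball_subset_image {g : ℂ → ℂ} {z₀ : ℂ} {ρ : ℝ} (hρ : 0 < ρ)
    (hg : DifferentiableOn ℂ g (ball z₀ ρ)) (hβ : deriv g z₀ ≠ 0)
    (hb : ∀ z ∈ ball z₀ ρ, ‖deriv g z‖ ≤ 2 * ‖deriv g z₀‖) :
    ball (g z₀) (‖deriv g z₀‖ * ρ / 24) ⊆ g '' ball z₀ ρ := by
  set β := deriv g z₀ with hβdef
  have hβpos : 0 < ‖β‖ := norm_pos_iff.mpr hβ
  have hd : DifferentiableOn ℂ (deriv g) (ball z₀ ρ) := hg.deriv isOpen_ball
  have hmaps : MapsTo (deriv g) (ball z₀ ρ) (closedBall (deriv g z₀) (3 * ‖β‖)) := by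
    intro z hz
    rw [mem_closedBall, dist_eq_norm]
    have := norm_sub_le (deriv g z) β
    linarith [hb z hz]
  have hsub : closedBall z₀ (ρ / 6) ⊆ ball z₀ ρ := closedBall_subset_ball (by linarith)
  have h1 : ∀ z ∈ closedBall z₀ (ρ / 6), ‖deriv g z - β‖ ≤ ‖β‖ / 2 := by
    intro z hz
    have := dist_le_div_mul_dist_of_mapsTo_ball hd hmaps (hsub hz)
    rw [dist_eq_norm] at this
    refine this.trans ?_
    calc 3 * ‖β‖ / ρ * dist z z₀ ≤ 3 * ‖β‖ / ρ * (ρ / 6) := by
          gcongr; exact hz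
      _ = ‖β‖ / 2 := by field_simp; ring
  have h2 : ∀ z ∈ closedBall z₀ (ρ / 6), ‖β‖ / 2 * ‖z - z₀‖ ≤ ‖g z - g z₀‖ := by
    intro z hz
    have hder : ∀ x ∈ closedBall z₀ (ρ / 6), HasDerivWithinAt (fun z => g z - β * z)
        (deriv g x - β) (closedBall z₀ (ρ / 6)) x := by
      intro x hx
      have h3 : HasDerivAt g (deriv g x) x :=
        (hg.differentiableAt (isOpen_ball.mem_nhds (hsub hx))).hasDerivAt
      have h4 : HasDerivAt (fun z => β * z) β x := by
        simpa using (hasDerivAt_id x).const_mul β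
      exact (h3.sub h4).hasDerivWithinAt
    have := (convex_closedBall z₀ (ρ / 6)).norm_image_sub_le_of_norm_hasDerivWithin_le hder h1
      (mem_closedBall_self (by linarith)) hz
    have h5 : β * (z - z₀) = (g z - g z₀) - (g z - β * z - (g z₀ - β * z₀)) := by ring
    have h6 := norm_sub_le (g z - g z₀) (g z - β * z - (g z₀ - β * z₀))
    rw [← h5, norm_mul] at h6
    linarith
  have hdc : DiffContOnCl ℂ g (ball z₀ (ρ / 6)) :=
    (hg.mono (closure_ball_subset_closedBall.trans hsub)).diffContOnCl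
  have h7 := hdc.ball_subset_image_closedBall (ε := ‖β‖ * ρ / 12) (by linarith) (fun z hz => by
    have := h2 z (sphere_subset_closedBall hz)
    rw [mem_sphere, dist_eq_norm] at hz
    rw [hz] at this
    linarith) (by
    apply Frequently.filter_mono _ (nhdsWithin_le_nhds (s := {z₀}ᶜ))
    apply Eventually.frequently
    filter_upwards [self_mem_nhdsWithin,
      mem_nhdsWithin_of_mem_nhds (closedBall_mem_nhds z₀ (show 0 < ρ / 6 by linarith))] with z hz hz'
    have h8 := h2 z hz'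
    have h9 : 0 < ‖z - z₀‖ := norm_pos_iff.mpr (sub_ne_zero.mpr hz)
    intro h
    rw [h, sub_self, norm_zero] at h8
    nlinarith)
  intro v hv
  have : ‖β‖ * ρ / 12 / 2 = ‖β‖ * ρ / 24 := by ring
  rw [this] at h7
  exact image_mono hsub (h7 hv)

/-- Bloch's theorem, weak form -/
theorem bloch {g : ℂ → ℂ} (hg : DifferentiableOn ℂ g (ball 0 1)) {L : ℝ} (hL : 0 < L)
    (hom : ∀ c : ℂ, ∃ v ∈ ball c L, ∀ z ∈ ball (0 : ℂ) 1, g z ≠ v) {p : ℂ}
    (hp : p ∈ ball (0 : ℂ) 1) : ‖deriv g p‖ ≤ 96 * L / (1 - ‖p‖) := by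
  have hp1 : ‖p‖ < 1 := mem_ball_zero_iff.mp hp
  set r := (1 - ‖p‖) / 2 with hr
  have hr0 : 0 < r := by rw [hr]; linarith
  have hsub : closedBall p r ⊆ ball 0 1 := by
    intro z hz
    rw [mem_ball_zero_iff]
    rw [mem_closedBall, dist_eq_norm] at hz
    have := norm_add_le (z - p) p
    rw [sub_add_cancel] at this
    linarith
  have hd : DifferentiableOn ℂ (deriv g) (ball 0 1) := hg.deriv isOpen_ball
  have hcont : ContinuousOn (fun z => (r - ‖z - p‖) * ‖deriv g z‖) (closedBall p r) :=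
    ContinuousOn.mul (by fun_prop) (hd.continuousOn.mono hsub).norm
  obtain ⟨z₀, hz₀, hmax⟩ := (isCompact_closedBall p r).exists_isMaxOn
    ⟨p, mem_closedBall_self hr0.le⟩ hcont
  have hmp : r * ‖deriv g p‖ ≤ (r - ‖z₀ - p‖) * ‖deriv g z₀‖ := by
    simpa using hmax (mem_closedBall_self hr0.le)
  have hfin : (r - ‖z₀ - p‖) * ‖deriv g z₀‖ ≤ 48 * L := by
    by_contra hcon
    push Not at hcon
    set d := r - ‖z₀ - p‖ with hddef
    have hd0 : 0 ≤ d := by
      rw [mem_closedBall, dist_eq_norm] at hz₀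
      linarith
    have hβ : deriv g z₀ ≠ 0 := by
      intro h
      rw [h, norm_zero, mul_zero] at hcon
      linarith
    have hdpos : 0 < d := by
      rcases hd0.eq_or_lt with h | h
      · rw [← h, zero_mul] at hcon
        linarith
      · exact h
    have hs2 : ∀ z ∈ ball z₀ (d / 2), ‖z - p‖ ≤ r - d / 2 := by
      intro z hz
      rw [mem_ball, dist_eq_norm] at hz
      have := norm_add_le (z - z₀) (z₀ - p)
      rw [sub_add_sub_cancel] at this
      linarith
    have hs3 : ball z₀ (d / 2) ⊆ closedBall p r := by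
      intro z hz
      rw [mem_closedBall, dist_eq_norm]
      linarith [hs2 z hz]
    have key := ball_subset_image (g := g) (z₀ := z₀) (ρ := d / 2) (by linarith)
      (hg.mono (hs3.trans hsub)) hβ (fun z hz => by
        have h1 : (r - ‖z - p‖) * ‖deriv g z‖ ≤ d * ‖deriv g z₀‖ := hmax (hs3 hz)
        have h2 : d / 2 * ‖deriv g z‖ ≤ (r - ‖z - p‖) * ‖deriv g z‖ := by
          gcongr
          linarith [hs2 z hz]
        nlinarith)
    obtain ⟨v, hv, hv'⟩ := hom (g z₀)
    have hv2 : v ∈ ball (g z₀) (‖deriv g z₀‖ * (d / 2) / 24) :=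
      ball_subset_ball (by nlinarith) hv
    obtain ⟨z, hz, rfl⟩ := key hv2
    exact hv' z (hsub (hs3 hz)) rfl
  rw [le_div_iff₀ (by linarith)]
  have : 1 - ‖p‖ = 2 * r := by rw [hr]; ring
  rw [this]
  nlinarith

/-- every disc of radius four contains a point at which the cosine is an integer -/
theorem exists_cos_int (c : ℂ) : ∃ v ∈ ball c 4, ∃ n : ℤ, cos v = n := by
  obtain ⟨t, ht, n, hn⟩ : ∃ t : ℝ, |t - c.im| ≤ 2 ∧ ∃ n : ℤ, Real.cosh t = n := by
    have h2 : 2 ≤ Real.cosh 2 := by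
      rw [Real.cosh_eq]
      have h1 := Real.add_one_le_exp 1
      have h3 : Real.exp 2 = Real.exp 1 * Real.exp 1 := by rw [← Real.exp_add]; norm_num
      have h4 := Real.exp_pos (-2)
      nlinarith
    have main : ∀ s : ℝ, 0 ≤ s → ∃ t : ℝ, |t - s| ≤ 2 ∧ ∃ n : ℤ, Real.cosh t = n := by
      intro s hs
      have h5 : Real.cosh s + 1 ≤ Real.cosh (s + 2) := by
        rw [Real.cosh_add]
        have h6 := Real.one_le_cosh s
        have h7 : 0 ≤ Real.sinh s := Real.sinh_nonneg_iff.mpr hs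
        have h8 : 0 ≤ Real.sinh 2 := Real.sinh_nonneg_iff.mpr (by norm_num)
        nlinarith [mul_nonneg h7 h8]
      have h9 : ((⌈Real.cosh s⌉ : ℤ) : ℝ) ∈ Icc (Real.cosh s) (Real.cosh (s + 2)) :=
        ⟨Int.le_ceil _, (Int.ceil_lt_add_one _).le.trans h5⟩
      obtain ⟨t, ht, hte⟩ := intermediate_value_Icc (show s ≤ s + 2 by linarith)
        Real.continuous_cosh.continuousOn h9
      exact ⟨t, abs_le.mpr ⟨by linarith [ht.1], by linarith [ht.2]⟩, _, hte⟩
    rcases le_total 0 c.im with h | h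
    · exact main _ h
    · obtain ⟨t, ht, n, hn⟩ := main (-c.im) (by linarith)
      refine ⟨-t, ?_, n, by rwa [Real.cosh_neg]⟩
      rw [← abs_neg]
      convert ht using 2
      ring
  set m : ℤ := round (c.re / Real.pi) with hm
  have hm2 : |m * Real.pi - c.re| ≤ Real.pi / 2 := by
    have h1 := abs_sub_round (c.re / Real.pi)
    rw [← hm] at h1
    have h2 : m * Real.pi - c.re = -(Real.pi * (c.re / Real.pi - m)) := by
      field_simp
      ring
    rw [h2, abs_neg, abs_mul, abs_of_pos Real.pi_pos]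
    nlinarith [Real.pi_pos]
  refine ⟨m * Real.pi + t * I, ?_, (m.negOnePow : ℤ) * n, ?_⟩
  · rw [mem_ball, dist_eq_norm]
    refine (norm_le_abs_re_add_abs_im _).trans_lt ?_
    have h1 : (↑m * ↑Real.pi + ↑t * I - c).re = m * Real.pi - c.re := by simp
    have h2 : (↑m * ↑Real.pi + ↑t * I - c).im = t - c.im := by simp
    rw [h1, h2]
    linarith [Real.pi_lt_four]
  · rw [add_comm, cos_antiperiodic.add_int_mul_eq, cos_mul_I, ← ofReal_cosh, hn]
    push_cast
    rfl

/-- Landau's theorem, weak form -/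
theorem landau (a : ℂ) {p : ℂ} (hp : p ∈ ball (0 : ℂ) 1) :
    ∃ M : ℝ, ∀ w : ℂ → ℂ, DifferentiableOn ℂ w (ball 0 1) → (∀ z ∈ ball (0 : ℂ) 1, w z ≠ 0) →
      (∀ z ∈ ball (0 : ℂ) 1, w z ≠ 1) → w p = a → ‖deriv w p‖ ≤ M := by
  have hpi : (2 * Real.pi * I : ℂ) ≠ 0 := two_pi_I_ne_zero
  set κ : ℂ := log a / (2 * Real.pi * I) with hκ
  refine ⟨‖a‖ * (‖(2 * Real.pi * I : ℂ)‖ * ((2 + ‖κ‖ ^ 2) * (96 * 4 / (1 - ‖p‖)))), ?_⟩
  intro w hw h0 h1 ha
  have ha0 : a ≠ 0 := ha ▸ h0 p hp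
  obtain ⟨g₁, hg₁, hg₁p, hg₁e⟩ := exists_log hw h0 hp (L := log a) (by rw [exp_log ha0, ha])
  set k : ℂ → ℂ := fun z => g₁ z / (2 * Real.pi * I) with hk
  have hkd : DifferentiableOn ℂ k (ball 0 1) := hg₁.div_const _
  have hkint : ∀ z ∈ ball (0 : ℂ) 1, ∀ n : ℤ, k z ≠ n := by
    intro z hz n hn
    apply h1 z hz
    rw [← hg₁e z hz, exp_eq_one_iff]
    refine ⟨n, ?_⟩
    rw [← hn, hk]
    field_simp
  have hne : ∀ z ∈ ball (0 : ℂ) 1, 1 - k z ^ 2 ≠ 0 := by
    intro z hz h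
    have h2 : (k z - 1) * (k z + 1) = 0 := by linear_combination -h
    rcases mul_eq_zero.mp h2 with h3 | h3
    · exact hkint z hz 1 (by push_cast; linear_combination h3)
    · exact hkint z hz (-1) (by push_cast; linear_combination h3)
  obtain ⟨g₂, hg₂, -, hg₂e⟩ := exists_log (w := fun z => 1 - k z ^ 2) (by fun_prop) hne hp
    (exp_log (hne p hp))
  set v : ℂ → ℂ := fun z => exp (g₂ z / 2) with hv
  have hvd : DifferentiableOn ℂ v (ball 0 1) := (hg₂.div_const 2).cexp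
  have hv2 : ∀ z ∈ ball (0 : ℂ) 1, (k z + I * v z) * (k z - I * v z) = 1 := by
    intro z hz
    have h2 : v z ^ 2 = 1 - k z ^ 2 := by
      rw [← hg₂e z hz, hv, sq, ← exp_add]
      ring_nf
    linear_combination h2 - v z ^ 2 * I_sq
  have hne3 : ∀ z ∈ ball (0 : ℂ) 1, k z + I * v z ≠ 0 := by
    intro z hz h
    have := hv2 z hz
    rw [h, zero_mul] at this
    exact zero_ne_one this
  obtain ⟨g₃, hg₃, -, hg₃e⟩ := exists_log (w := fun z => k z + I * v z) (by fun_prop) hne3 hp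
    (exp_log (hne3 p hp))
  set g : ℂ → ℂ := fun z => -I * g₃ z with hg
  have hgd : DifferentiableOn ℂ g (ball 0 1) := hg₃.const_mul _
  have hcos : ∀ z ∈ ball (0 : ℂ) 1, cos (g z) = k z := by
    intro z hz
    have h2 : g z * I = g₃ z := by
      rw [hg]
      linear_combination (-g₃ z) * I_sq
    have h3 : exp (-g₃ z) = k z - I * v z := by
      rw [exp_neg, hg₃e z hz]
      exact (eq_inv_of_mul_eq_one_right (hv2 z hz)).symm
    rw [cos, neg_mul, h2, h3, hg₃e z hz]
    ring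
  have hbl : ‖deriv g p‖ ≤ 96 * 4 / (1 - ‖p‖) := by
    refine bloch hgd (by norm_num) (fun c => ?_) hp
    obtain ⟨u, hu, n, hn⟩ := exists_cos_int c
    refine ⟨u, hu, fun z hz h => hkint z hz n ?_⟩
    rw [← hcos z hz, h, hn]
  have hweq : w =ᶠ[𝓝 p] fun z => exp (2 * Real.pi * I * cos (g z)) := by
    filter_upwards [isOpen_ball.mem_nhds hp] with z hz
    rw [hcos z hz, ← hg₁e z hz, hk]
    congr 1
    field_simp
  have hgp : HasDerivAt g (deriv g p) p :=
    (hgd.differentiableAt (isOpen_ball.mem_nhds hp)).hasDerivAt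
  have hder := ((hgp.ccos.const_mul (2 * Real.pi * I)).cexp).deriv
  rw [hweq.deriv_eq, hder, ← hweq.eq_of_nhds, ha, norm_mul, norm_mul (2 * Real.pi * I),
    norm_mul (-sin (g p)), norm_neg]
  have hsin : ‖sin (g p)‖ ≤ 2 + ‖κ‖ ^ 2 := by
    have h2 : sin (g p) ^ 2 = 1 - κ ^ 2 := by
      have h3 := sin_sq_add_cos_sq (g p)
      rw [hcos p hp] at h3
      have h4 : k p = κ := by rw [hk, hκ]; simp only [hg₁p]
      rw [h4] at h3
      linear_combination h3
    have h5 : ‖sin (g p)‖ ^ 2 ≤ 1 + ‖κ‖ ^ 2 := by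
      rw [← norm_pow, h2]
      refine (norm_sub_le _ _).trans ?_
      simp
    nlinarith [norm_nonneg (sin (g p)), sq_nonneg (‖sin (g p)‖ - 1), sq_nonneg ‖κ‖]
  gcongr

end Pool.Agent.Lib.MP_5f3cbe_lc
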