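import Mathlib

/-! The involutive automorphisms of the unit disc. -/

namespace Pool.Agent.Lib.MP_5f3cbe_lc

open Complex Metric Set Filter Topology ComplexConjugate

/-- the involution of the disc exchanging `0` and `a` -/
noncomputable def mob (a z : ℂ) : ℂ := (a - z) / (1 - conj a * z)

theorem mob_den_ne {a z : ℂ} (ha : a ∈ ball (0 : ℂ) 1) (hz : z ∈ ball (0 : ℂ) 1) :
    1 - conj a * z ≠ 0 := by
  rw [mem_ball_zero_iff] at ha hz
  intro h
  have h1 : conj a * z = 1 := by linear_combination -h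
  have h2 := congrArg norm h1
  rw [norm_mul, norm_conj, norm_one] at h2
  nlinarith [norm_nonneg a, norm_nonneg z]

theorem mob_identity (a z : ℂ) :
    ‖1 - conj a * z‖ ^ 2 - ‖a - z‖ ^ 2 = (1 - ‖a‖ ^ 2) * (1 - ‖z‖ ^ 2) := by
  simp only [Complex.sq_norm, normSq_apply, sub_re, one_re, mul_re, conj_re, conj_im, sub_im,
    one_im, mul_im]
  ring

theorem one_sub_norm_mob {a z : ℂ} (ha : a ∈ ball (0 : ℂ) 1) (hz : z ∈ ball (0 : ℂ) 1) :
    (1 - ‖a‖ ^ 2) * (1 - ‖z‖) / 8 ≤ 1 - ‖mob a z‖ := by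
  have hne := mob_den_ne ha hz
  rw [mem_ball_zero_iff] at ha hz
  have hD : 0 < ‖1 - conj a * z‖ := norm_pos_iff.mpr hne
  have hD2 : ‖1 - conj a * z‖ ≤ 2 := by
    refine (norm_sub_le _ _).trans ?_
    rw [norm_mul, norm_conj, norm_one]
    nlinarith [norm_nonneg a, norm_nonneg z]
  have hid := mob_identity a z
  have ha2 : 0 < 1 - ‖a‖ ^ 2 := by nlinarith [norm_nonneg a]
  have hz2 : 1 - ‖z‖ ≤ 1 - ‖z‖ ^ 2 := by nlinarith [norm_nonneg z]
  have hz1 : 0 < 1 - ‖z‖ := by linarith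
  set D := ‖1 - conj a * z‖
  set N := ‖a - z‖ with hN
  have hN0 : 0 ≤ N := norm_nonneg _
  have hpos : 0 < (1 - ‖a‖ ^ 2) * (1 - ‖z‖) := mul_pos ha2 hz1
  have hle : (1 - ‖a‖ ^ 2) * (1 - ‖z‖) ≤ D ^ 2 - N ^ 2 := by
    rw [hid]; gcongr
  have hND : N < D := by nlinarith
  have h1 : ‖mob a z‖ = N / D := by rw [mob, norm_div]
  have h2 : 1 - N / D = (D - N) / D := by field_simp
  rw [h1, h2, div_le_div_iff₀ (by norm_num) hD]
  have h3 : D ^ 2 - N ^ 2 = (D - N) * (D + N) := by ring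
  have h4 : (D - N) * (D + N) ≤ (D - N) * 4 := by
    apply mul_le_mul_of_nonneg_left <;> linarith
  nlinarith

theorem mob_mem {a z : ℂ} (ha : a ∈ ball (0 : ℂ) 1) (hz : z ∈ ball (0 : ℂ) 1) :
    mob a z ∈ ball (0 : ℂ) 1 := by
  have h := one_sub_norm_mob ha hz
  rw [mem_ball_zero_iff] at ha hz ⊢
  have ha2 : 0 < 1 - ‖a‖ ^ 2 := by nlinarith [norm_nonneg a]
  have hz1 : 0 < 1 - ‖z‖ := by linarith
  have := mul_pos ha2 hz1
  linarith

theorem mob_zero (a : ℂ) : mob a 0 = a := by simp [mob]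

theorem mob_self (a : ℂ) : mob a a = 0 := by simp [mob]

theorem mob_mob {a z : ℂ} (ha : a ∈ ball (0 : ℂ) 1) (hz : z ∈ ball (0 : ℂ) 1) :
    mob a (mob a z) = z := by
  have h1 := mob_den_ne ha hz
  have h2 := mob_den_ne ha (mob_mem ha hz)
  have h3 : mob a z * (1 - conj a * z) = a - z := by rw [mob, div_mul_cancel₀ _ h1]
  rw [mob, div_eq_iff h2]
  linear_combination -h3

theorem hasDerivAt_mob {a z : ℂ} (ha : a ∈ ball (0 : ℂ) 1) (hz : z ∈ ball (0 : ℂ) 1) :
    HasDerivAt (mob a) ((conj a * a - 1) / (1 - conj a * z) ^ 2) z := by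
  have h1 := mob_den_ne ha hz
  have h2 : HasDerivAt (fun z => a - z) (-1) z := by
    simpa using (hasDerivAt_id z).const_sub a
  have h3 : HasDerivAt (fun z => 1 - conj a * z) (-conj a) z := by
    simpa using ((hasDerivAt_id z).const_mul (conj a)).const_sub 1
  refine (h2.fun_div h3 h1).congr_deriv ?_
  congr 1
  ring

theorem differentiableOn_mob {a : ℂ} (ha : a ∈ ball (0 : ℂ) 1) :
    DifferentiableOn ℂ (mob a) (ball 0 1) := fun _ hz =>
  (hasDerivAt_mob ha hz).differentiableAt.differentiableWithinAt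

/-- a holomorphic self-map of the disc fixing `p` with prescribed derivative there -/
theorem exists_self_map {p c : ℂ} (hp : p ∈ ball (0 : ℂ) 1) (hc : ‖c‖ ≤ 1) :
    ∃ τ : ℂ → ℂ, DifferentiableOn ℂ τ (ball 0 1) ∧ MapsTo τ (ball 0 1) (ball 0 1) ∧ τ p = p ∧
      HasDerivAt τ c p := by
  have hm : MapsTo (fun z => c * mob p z) (ball 0 1) (ball 0 1) := by
    intro z hz
    have := mob_mem hp hz
    rw [mem_ball_zero_iff] at this ⊢
    rw [norm_mul]
    nlinarith [norm_nonneg c, norm_nonneg (mob p z)]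
  refine ⟨fun z => mob p (c * mob p z), ?_, fun z hz => mob_mem hp (hm hz), ?_, ?_⟩
  · exact (differentiableOn_mob hp).comp ((differentiableOn_mob hp).const_mul c) hm
  · simp [mob_self, mob_zero]
  · have h1 := (hasDerivAt_mob hp hp).const_mul c
    have h2 : HasDerivAt (mob p) ((conj p * p - 1) / (1 - conj p * 0) ^ 2) (c * mob p p) := by
      rw [mob_self, mul_zero c]
      exact hasDerivAt_mob hp (mem_ball_self one_pos)
    have h4 := HasDerivAt.comp (h₂ := mob p) (h := fun y => c * mob p y) p h2 h1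
    refine HasDerivAt.congr_deriv h4 ?_
    have h3 := mob_den_ne hp hp
    generalize conj p = b at h3 ⊢
    field_simp
    ring

/-- Schwarz's lemma at an arbitrary point -/
theorem norm_le_norm_mob {ζ : ℂ → ℂ} (hζ : DifferentiableOn ℂ ζ (ball 0 1))
    (hb : ∀ z ∈ ball (0 : ℂ) 1, ‖ζ z‖ ≤ 1) {a z : ℂ} (ha : a ∈ ball (0 : ℂ) 1) (h0 : ζ a = 0)
    (hz : z ∈ ball (0 : ℂ) 1) : ‖ζ z‖ ≤ ‖mob a z‖ := by
  have h := norm_le_norm_of_mapsTo_ball (f := fun w => ζ (mob a w)) (R := 1) (z := mob a z)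
    (hζ.comp (differentiableOn_mob ha) (fun w hw => mob_mem ha hw))
    (fun w hw => mem_closedBall_zero_iff.mpr (hb _ (mob_mem ha hw)))
    (by simp [mob_zero, h0]) (mem_ball_zero_iff.mp (mob_mem ha hz))
  simpa only [mob_mob ha hz] using h

end Pool.Agent.Lib.MP_5f3cbe_lc
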