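import Pool.Agent.Lib.MP_5f3cbe_lc.Defin
import Pool.Agent.Lib.MP_5f3cbe_lc.Landau
import Pool.Agent.Lib.MP_5f3cbe_lc.Mobius

/-! The meaning of the ring formulas in the ring of holomorphic functions on the disc. -/

namespace Pool.Agent.Lib.MP_5f3cbe_lc

open Complex Metric Set Filter Topology

/-- the ring of holomorphic functions on the unit disc, as in the frozen statement -/
abbrev H : Type :=
  ↥(Subring.closure {g : ℂ → ℂ | DifferentiableOn ℂ g (Metric.ball (0:ℂ) 1) ∧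
    ∀ z ∉ Metric.ball (0:ℂ) 1, g z = g 0})

theorem H.prop' (f : H) : DifferentiableOn ℂ f.1 (ball 0 1) ∧
    ∀ z ∉ ball (0 : ℂ) 1, f.1 z = f.1 0 := by
  obtain ⟨f, hf⟩ := f
  induction hf using Subring.closure_induction with
  | mem x hx => exact hx
  | zero => exact ⟨differentiableOn_const 0, fun _ _ => rfl⟩
  | one => exact ⟨differentiableOn_const 1, fun _ _ => rfl⟩
  | add x y _ _ hx hy =>
    exact ⟨hx.1.add hy.1, fun z hz => by
      have h1 := hx.2 z hz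
      have h2 := hy.2 z hz
      simp only [Pi.add_apply] at *
      rw [h1, h2]⟩
  | neg x _ hx =>
    exact ⟨hx.1.neg, fun z hz => by
      have h1 := hx.2 z hz
      simp only [Pi.neg_apply] at *
      rw [h1]⟩
  | mul x y _ _ hx hy =>
    exact ⟨hx.1.mul hy.1, fun z hz => by
      have h1 := hx.2 z hz
      have h2 := hy.2 z hz
      simp only [Pi.mul_apply] at *
      rw [h1, h2]⟩

theorem H.diff (f : H) : DifferentiableOn ℂ f.1 (ball 0 1) := f.prop'.1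

theorem H.diffAt (f : H) {p : ℂ} (hp : p ∈ ball (0 : ℂ) 1) : DifferentiableAt ℂ f.1 p :=
  f.diff.differentiableAt (isOpen_ball.mem_nhds hp)

theorem H.hasDerivAt (f : H) {p : ℂ} (hp : p ∈ ball (0 : ℂ) 1) :
    HasDerivAt f.1 (deriv f.1 p) p := (f.diffAt hp).hasDerivAt

theorem H.ext' {f g : H} (h : ∀ z ∈ ball (0 : ℂ) 1, f.1 z = g.1 z) : f = g := by
  apply Subtype.ext
  funext z
  by_cases hz : z ∈ ball (0 : ℂ) 1
  · exact h z hz
  · rw [f.prop'.2 z hz, g.prop'.2 z hz, h 0 (mem_ball_self one_pos)]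

theorem exists_H {g : ℂ → ℂ} (hg : DifferentiableOn ℂ g (ball 0 1)) :
    ∃ f : H, ∀ z ∈ ball (0 : ℂ) 1, f.1 z = g z := by
  classical
  refine ⟨⟨fun z => if z ∈ ball (0 : ℂ) 1 then g z else g 0, Subring.subset_closure ⟨?_, ?_⟩⟩, ?_⟩
  · exact hg.congr (fun z hz => if_pos hz)
  · intro z hz
    simp only [if_neg hz, if_pos (mem_ball_self (x := (0 : ℂ)) one_pos)]
  · intro z hz
    exact if_pos hz

theorem deriv_eq_of_eqOn {f g : ℂ → ℂ} (h : ∀ z ∈ ball (0 : ℂ) 1, f z = g z) {p : ℂ}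
    (hp : p ∈ ball (0 : ℂ) 1) : deriv f p = deriv g p := by
  apply Filter.EventuallyEq.deriv_eq
  filter_upwards [isOpen_ball.mem_nhds hp] with z hz using h z hz

@[simp] theorem H.add_apply (f g : H) (z : ℂ) : (f + g).1 z = f.1 z + g.1 z := rfl
@[simp] theorem H.sub_apply (f g : H) (z : ℂ) : (f - g).1 z = f.1 z - g.1 z := rfl
@[simp] theorem H.mul_apply (f g : H) (z : ℂ) : (f * g).1 z = f.1 z * g.1 z := rfl
@[simp] theorem H.one_apply (z : ℂ) : (1 : H).1 z = 1 := rfl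

theorem un_iff (f : H) : Un f ↔ ∀ z ∈ ball (0 : ℂ) 1, f.1 z ≠ 0 := by
  constructor
  · rintro ⟨c, hc⟩ z _ h
    have := congrArg (fun u : H => u.1 z) hc
    simp [h] at this
  · intro h
    obtain ⟨g, hg⟩ := exists_H (f.diff.inv h)
    refine ⟨g, H.ext' fun z hz => ?_⟩
    simp [hg z hz, h z hz]

theorem omit_iff (w : H) : Omit w ↔
    (∀ z ∈ ball (0 : ℂ) 1, w.1 z ≠ 0) ∧ (∀ z ∈ ball (0 : ℂ) 1, w.1 z ≠ 1) := by
  unfold Omit
  simp only [un_iff, H.sub_apply, H.one_apply, sub_ne_zero]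

/-- `q` is a code of the point `p`. -/
def IsAt (q : H) (p : ℂ) : Prop :=
  p ∈ ball (0 : ℂ) 1 ∧ (∀ f : H, Dv q f ↔ f.1 p = 0) ∧
    (∀ f : H, Dv (q * q) f ↔ f.1 p = 0 ∧ deriv f.1 p = 0)

theorem dv_lin {l : H} {p : ℂ} (hp : p ∈ ball (0 : ℂ) 1)
    (hl : ∀ z ∈ ball (0 : ℂ) 1, l.1 z = z - p) {f : H} (hf : f.1 p = 0) :
    ∃ g : H, f = l * g ∧ g.1 p = deriv f.1 p := by
  have hd : DifferentiableOn ℂ (dslope f.1 p) (ball 0 1) :=
    (differentiableOn_dslope (isOpen_ball.mem_nhds hp)).mpr f.diff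
  obtain ⟨g, hg⟩ := exists_H hd
  refine ⟨g, H.ext' fun z hz => ?_, by rw [hg p hp, dslope_same]⟩
  have := sub_smul_dslope f.1 p z
  rw [H.mul_apply, hl z hz, hg z hz, ← smul_eq_mul, this, hf, sub_zero]

theorem isAt_lin {l : H} {p : ℂ} (hp : p ∈ ball (0 : ℂ) 1)
    (hl : ∀ z ∈ ball (0 : ℂ) 1, l.1 z = z - p) : IsAt l p := by
  have hl0 : l.1 p = 0 := by rw [hl p hp, sub_self]
  refine ⟨hp, fun f => ⟨?_, fun hf => ?_⟩, fun f => ⟨?_, fun hf => ?_⟩⟩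
  · rintro ⟨c, rfl⟩
    simp [hl0]
  · obtain ⟨g, hg, -⟩ := dv_lin hp hl hf
    exact ⟨g, hg⟩
  · rintro ⟨c, rfl⟩
    refine ⟨by simp [hl0], ?_⟩
    have := (((l.hasDerivAt hp).mul (l.hasDerivAt hp)).mul (c.hasDerivAt hp)).deriv
    simpa [hl0] using this
  · obtain ⟨g, hg, hg'⟩ := dv_lin hp hl hf.1
    obtain ⟨k, hk, -⟩ := dv_lin hp hl (hg'.trans hf.2)
    exact ⟨k, by rw [hg, hk, mul_assoc]⟩

theorem exists_lin (p : ℂ) : ∃ l : H, ∀ z ∈ ball (0 : ℂ) 1, l.1 z = z - p :=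
  exists_H (by fun_prop)

theorem pt_lin {l : H} {p : ℂ} (hp : p ∈ ball (0 : ℂ) 1)
    (hl : ∀ z ∈ ball (0 : ℂ) 1, l.1 z = z - p) : Pt l := by
  refine ⟨fun h => (un_iff l).mp h p hp (by rw [hl p hp, sub_self]), fun a ha hu => ?_⟩
  rw [un_iff] at hu
  push Not at hu
  obtain ⟨z, hz, haz⟩ := hu
  obtain ⟨c, hc⟩ := ha
  have h1 : l.1 z = 0 := by rw [hc]; simp [haz]
  rw [hl z hz, sub_eq_zero] at h1
  rw [(isAt_lin hp hl).2.1, ← h1, haz]

theorem exists_pt {p : ℂ} (hp : p ∈ ball (0 : ℂ) 1) : ∃ q : H, Pt q ∧ IsAt q p := by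
  obtain ⟨l, hl⟩ := exists_lin p
  exact ⟨l, pt_lin hp hl, isAt_lin hp hl⟩

theorem Pt.exists_isAt {q : H} (hq : Pt q) : ∃ p, IsAt q p := by
  obtain ⟨h1, h2⟩ := hq
  rw [un_iff] at h1
  push Not at h1
  obtain ⟨p, hp, hqp⟩ := h1
  obtain ⟨l, hl⟩ := exists_lin p
  have hat := isAt_lin hp hl
  have h3 : l ∣ q := (hat.2.1 q).mpr hqp
  have h4 : q ∣ l := h2 l h3 (pt_lin hp hl).1
  refine ⟨p, hp, fun f => ?_, fun f => ?_⟩
  · rw [← hat.2.1]
    exact ⟨fun h => dvd_trans h3 h, fun h => dvd_trans h4 h⟩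
  · rw [← hat.2.2]
    exact ⟨fun h => dvd_trans (mul_dvd_mul h3 h3) h, fun h => dvd_trans (mul_dvd_mul h4 h4) h⟩

/-- the set of derivatives at `p` of functions omitting `0` and `1` with value `a` at `p` -/
def jets (p a : ℂ) : Set ℂ := {b | ∃ w : H, Omit w ∧ w.1 p = a ∧ deriv w.1 p = b}

theorem jets_bdd {p : ℂ} (hp : p ∈ ball (0 : ℂ) 1) (a : ℂ) : ∃ M, ∀ b ∈ jets p a, ‖b‖ ≤ M := by
  obtain ⟨M, hM⟩ := landau a hp
  refine ⟨M, ?_⟩
  rintro b ⟨w, hw, ha, rfl⟩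
  rw [omit_iff] at hw
  exact hM _ w.diff hw.1 hw.2 ha

theorem jets_mul {p : ℂ} (hp : p ∈ ball (0 : ℂ) 1) {a b c : ℂ} (hc : ‖c‖ ≤ 1)
    (hb : b ∈ jets p a) : c * b ∈ jets p a := by
  obtain ⟨w, hw, ha, rfl⟩ := hb
  obtain ⟨τ, hτ, hm, hτp, hτd⟩ := exists_self_map hp hc
  obtain ⟨w', hw'⟩ := exists_H (w.diff.comp hτ hm)
  rw [omit_iff] at hw
  refine ⟨w', ?_, ?_, ?_⟩
  · rw [omit_iff]
    exact ⟨fun z hz => by rw [hw' z hz]; exact hw.1 _ (hm hz),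
      fun z hz => by rw [hw' z hz]; exact hw.2 _ (hm hz)⟩
  · rw [hw' p hp, Function.comp_apply, hτp, ha]
  · rw [deriv_eq_of_eqOn hw' hp]
    have h1 : HasDerivAt w.1 (deriv w.1 p) (τ p) := by rw [hτp]; exact w.hasDerivAt hp
    rw [(h1.comp p hτd).deriv, mul_comm]

theorem zero_mem_jets {p : ℂ} (hp : p ∈ ball (0 : ℂ) 1) {a : ℂ} (h0 : a ≠ 0) (h1 : a ≠ 1) :
    0 ∈ jets p a := by
  obtain ⟨w, hw⟩ := exists_H (g := fun _ => a) (differentiableOn_const a)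
  refine ⟨w, ?_, hw p hp, by rw [deriv_eq_of_eqOn hw hp]; simp⟩
  rw [omit_iff]
  exact ⟨fun z hz => by rwa [hw z hz], fun z hz => by rwa [hw z hz]⟩

theorem flat_iff {q : H} {p : ℂ} (hq : IsAt q p) (y : H) :
    Flat q y ↔ ∀ b ∈ jets p (y.1 p), 2 * deriv y.1 p - b ∈ jets p (y.1 p) := by
  obtain ⟨hp, h1, h2⟩ := hq
  have hder : ∀ w w' : H, deriv (w + w' - (y + y)).1 p =
      deriv w.1 p + deriv w'.1 p - (deriv y.1 p + deriv y.1 p) := fun w w' =>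
    (((w.hasDerivAt hp).add (w'.hasDerivAt hp)).sub
      ((y.hasDerivAt hp).add (y.hasDerivAt hp))).deriv
  unfold Flat
  simp only [h1, h2, hder, H.add_apply, H.sub_apply]
  constructor
  · rintro h b ⟨w, hw, ha, rfl⟩
    obtain ⟨w', hw', h3, h4⟩ := h w hw (by rw [ha, sub_self])
    exact ⟨w', hw', by linear_combination h3 - ha, by linear_combination h4⟩
  · intro h w hw ha
    obtain ⟨w', hw', h3, h4⟩ := h _ ⟨w, hw, by linear_combination ha, rfl⟩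
    exact ⟨w', hw', by linear_combination h3 + ha, by linear_combination h4⟩

theorem flat_of_deriv {q : H} {p : ℂ} (hq : IsAt q p) {y : H} (hy : deriv y.1 p = 0) :
    Flat q y := by
  rw [flat_iff hq, hy]
  intro b hb
  simpa using jets_mul hq.1 (c := -1) (by simp) hb

theorem deriv_of_flat {q : H} {p : ℂ} (hq : IsAt q p) {y : H} (hy : Flat q y)
    (h0 : y.1 p ≠ 0) (h1 : y.1 p ≠ 1) : deriv y.1 p = 0 := by
  rw [flat_iff hq] at hy
  obtain ⟨M, hM⟩ := jets_bdd hq.1 (y.1 p)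
  have key : ∀ n : ℕ, (n : ℂ) * (2 * deriv y.1 p) ∈ jets p (y.1 p) := by
    intro n
    induction n with
    | zero => simpa using zero_mem_jets hq.1 h0 h1
    | succ n ih =>
      have := hy _ (jets_mul hq.1 (c := -1) (by simp) ih)
      convert this using 1
      push_cast
      ring
  by_contra hne
  have hpos : 0 < ‖2 * deriv y.1 p‖ := norm_pos_iff.mpr (mul_ne_zero two_ne_zero hne)
  obtain ⟨n, hn⟩ := exists_nat_gt (M / ‖2 * deriv y.1 p‖)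
  have := hM _ (key n)
  rw [norm_mul, Complex.norm_natCast] at this
  rw [div_lt_iff₀ hpos] at hn
  linarith

theorem cst_iff (y : H) : Cst y ↔ ∃ c : ℂ, ∀ z ∈ ball (0 : ℂ) 1, y.1 z = c := by
  have hder : ∀ p ∈ ball (0 : ℂ) 1, deriv (y + 1 + 1).1 p = deriv y.1 p := fun p hp =>
    (((y.hasDerivAt hp).add_const 1).add_const 1).deriv
  constructor
  · intro h
    refine ⟨y.1 0, fun z hz => ?_⟩
    refine isOpen_ball.is_const_of_deriv_eq_zero (convex_ball (0 : ℂ) 1).isPreconnected y.diff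
      (fun p hp => ?_) hz (mem_ball_self one_pos)
    obtain ⟨q, hq, hat⟩ := exists_pt hp
    obtain ⟨h1, h2⟩ := h q hq
    by_cases h3 : y.1 p = 0 ∨ y.1 p = 1
    · have := deriv_of_flat hat h2 (by
        rcases h3 with h3 | h3 <;> simp [h3] <;> norm_num) (by
        rcases h3 with h3 | h3 <;> simp [h3] <;> norm_num)
      rwa [hder p hp] at this
    · push Not at h3
      exact deriv_of_flat hat h1 h3.1 h3.2
  · rintro ⟨c, hc⟩ q hq
    obtain ⟨p, hat⟩ := hq.exists_isAt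
    have h0 : deriv y.1 p = 0 := by rw [deriv_eq_of_eqOn hc hat.1]; simp
    exact ⟨flat_of_deriv hat h0, flat_of_deriv hat (by rw [hder p hat.1, h0])⟩

theorem small_iff {e : H} {c : ℂ} (he : ∀ z ∈ ball (0 : ℂ) 1, e.1 z = c) :
    Small e ↔ ‖c‖ ≤ 1 := by
  have main : ∀ q p, IsAt q p → ((∀ w : H, Omit w → Dv q (w + 1) →
      ∃ w' : H, Omit w' ∧ Dv (q * q) (w' + 1 - e * (w + 1))) ↔
      ∀ b ∈ jets p (-1), c * b ∈ jets p (-1)) := by
    rintro q p ⟨hp, h1, h2⟩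
    have hder : ∀ w w' : H, deriv (w' + 1 - e * (w + 1)).1 p =
        deriv w'.1 p - c * deriv w.1 p := by
      intro w w'
      have h3 : ∀ z ∈ ball (0 : ℂ) 1, (w' + 1 - e * (w + 1)).1 z =
          w'.1 z + 1 - c * (w.1 z + 1) := by
        intro z hz
        simp [he z hz]
      rw [deriv_eq_of_eqOn h3 hp]
      exact (((w'.hasDerivAt hp).add_const 1).fun_sub
        (((w.hasDerivAt hp).add_const 1).const_mul c)).deriv
    simp only [h1, h2, hder, H.add_apply, H.sub_apply, H.mul_apply, H.one_apply, he p hp]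
    constructor
    · rintro h b ⟨w, hw, ha, rfl⟩
      obtain ⟨w', hw', h3, h4⟩ := h w hw (by rw [ha]; ring)
      exact ⟨w', hw', by linear_combination h3 + c * ha, by linear_combination h4⟩
    · intro h w hw ha
      obtain ⟨w', hw', h3, h4⟩ := h _ ⟨w, hw, by linear_combination ha, rfl⟩
      exact ⟨w', hw', by linear_combination h3 - c * ha, by linear_combination h4⟩
  constructor
  · intro h
    have hp : (0 : ℂ) ∈ ball (0 : ℂ) 1 := mem_ball_self one_pos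
    obtain ⟨q, hq, hat⟩ := exists_pt hp
    have h1 := (main q 0 hat).mp (h q hq)
    obtain ⟨M, hM⟩ := jets_bdd hp (-1)
    have h2 : (1 : ℂ) ∈ jets 0 (-1) := by
      obtain ⟨w, hw⟩ := exists_lin 1
      refine ⟨w, ?_, by rw [hw 0 hp]; ring, ?_⟩
      · rw [omit_iff]
        constructor
        · intro z hz h
          rw [hw z hz, sub_eq_zero] at h
          simp [h] at hz
        · intro z hz h
          rw [hw z hz] at h
          have : z = 2 := by linear_combination h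
          simp [this] at hz
      · rw [deriv_eq_of_eqOn hw hp]
        simp
    have key : ∀ n : ℕ, c ^ n ∈ jets 0 (-1) := by
      intro n
      induction n with
      | zero => simpa using h2
      | succ n ih => rw [pow_succ']; exact h1 _ ih
    by_contra hc
    push Not at hc
    obtain ⟨n, hn⟩ := pow_unbounded_of_one_lt M hc
    have := hM _ (key n)
    rw [norm_pow] at this
    linarith
  · intro hc q hq
    obtain ⟨p, hat⟩ := hq.exists_isAt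
    exact (main q p hat).mpr (fun b hb => jets_mul hat.1 hc hb)

theorem le_iff {q q' : H} {p p' : ℂ} (hq : IsAt q p) (hq' : IsAt q' p') (g h : H) :
    Le g q h q' ↔ ‖g.1 p‖ ≤ ‖h.1 p'‖ := by
  unfold Le
  simp only [hq.2.1, hq'.2.1, cst_iff, H.sub_apply, H.mul_apply, sub_eq_zero]
  constructor
  · rintro ⟨d, e, ⟨cd, hd⟩, ⟨ce, he⟩, hs, h1, h2⟩
    rw [small_iff he] at hs
    rw [h1, h2, he p hq.1, hd p hq.1, hd p' hq'.1, norm_mul]
    exact mul_le_of_le_one_left (norm_nonneg _) hs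
  · intro hle
    obtain ⟨d, hd⟩ := exists_H (g := fun _ => h.1 p') (differentiableOn_const _)
    obtain ⟨e, he⟩ := exists_H (g := fun _ => g.1 p / h.1 p') (differentiableOn_const _)
    refine ⟨d, e, ⟨_, hd⟩, ⟨_, he⟩, ?_, (hd p' hq'.1).symm, ?_⟩
    · rw [small_iff he, norm_div]
      exact div_le_one_of_le₀ hle (norm_nonneg _)
    · rw [he p hq.1, hd p hq.1]
      by_cases h0 : h.1 p' = 0
      · rw [h0, norm_zero] at hle
        rw [h0, mul_zero]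
        exact norm_le_zero_iff.mp hle
      · field_simp

/-- analytic meaning of the formula `NA` -/
def NAsem (f ζ y : ℂ → ℂ) (a : ℂ) (A : ℝ) : Prop :=
  (∀ p ∈ ball (0 : ℂ) 1, ‖ζ p‖ ≤ 1) ∧
  (∀ p ∈ ball (0 : ℂ) 1, 2 * ‖ζ p‖ ≤ 1 → ‖y p‖ ≤ A) ∧
  (∀ p ∈ ball (0 : ℂ) 1, ∃ p' ∈ ball (0 : ℂ) 1, ‖ζ p'‖ ≤ ‖ζ p‖ ^ 2 ∧ ‖y p‖ ≤ A * ‖y p'‖) ∧
  (∀ p₀ ∈ ball (0 : ℂ) 1, ∃ G : ℂ → ℂ, DifferentiableOn ℂ G (ball 0 1) ∧
    (∀ p ∈ ball (0 : ℂ) 1, ‖ζ p‖ ≤ ‖ζ p₀‖ → 1 ≤ ‖G p‖ ∧ ‖f p‖ ≤ ‖G p‖) ∧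
    ∃ p' ∈ ball (0 : ℂ) 1, ‖ζ p'‖ ≤ ‖ζ p₀‖ ∧ ‖G a‖ ≤ ‖y p'‖)

theorem nasem_of_na {f : H} (h : NA f) : ∃ (ζ y : ℂ → ℂ) (a : ℂ) (A : ℝ),
    DifferentiableOn ℂ ζ (ball 0 1) ∧ a ∈ ball (0 : ℂ) 1 ∧ ζ a = 0 ∧ NAsem f.1 ζ y a A := by
  obtain ⟨ζ, y, A, hζ, h1, hA, h2, h3, h4⟩ := h
  obtain ⟨a, ha⟩ := hζ.exists_isAt
  obtain ⟨c, hc⟩ := (cst_iff A).mp hA
  refine ⟨ζ.1, y.1, a, ‖c‖, ζ.diff, ha.1, (ha.2.1 ζ).mp ⟨1, by simp⟩, ?_, ?_, ?_, ?_⟩
  · intro p hp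
    obtain ⟨q, hq, hat⟩ := exists_pt hp
    simpa [le_iff hat hat] using h1 q hq
  · intro p hp hle
    obtain ⟨q, hq, hat⟩ := exists_pt hp
    have := h2 q hq (by
      rw [le_iff hat hat, H.add_apply, ← two_mul, norm_mul]
      simpa using hle)
    rwa [le_iff hat hat, hc p hp] at this
  · intro p hp
    obtain ⟨q, hq, hat⟩ := exists_pt hp
    obtain ⟨q', hq', h5, h6⟩ := h3 q hq
    obtain ⟨p', hat'⟩ := hq'.exists_isAt
    rw [le_iff hat' hat, H.mul_apply, norm_mul, ← sq] at h5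
    rw [le_iff hat hat', H.mul_apply, norm_mul, hc p' hat'.1] at h6
    exact ⟨p', hat'.1, h5, h6⟩
  · intro p₀ hp₀
    obtain ⟨q₀, hq₀, hat₀⟩ := exists_pt hp₀
    obtain ⟨G, h5, q', hq', h6, h7⟩ := h4 q₀ hq₀
    obtain ⟨p', hat'⟩ := hq'.exists_isAt
    refine ⟨G.1, G.diff, fun p hp hle => ?_, p', hat'.1, (le_iff hat' hat₀ _ _).mp h6,
      (le_iff ha hat' _ _).mp h7⟩
    obtain ⟨q, hq, hat⟩ := exists_pt hp
    simpa [le_iff hat hat] using h5 q hq ((le_iff hat hat₀ _ _).mpr hle)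

theorem na_of_nasem {f : H} {y : ℂ → ℂ} {A : ℝ} (hy : DifferentiableOn ℂ y (ball 0 1))
    (hA : 0 ≤ A) (h : NAsem f.1 (fun z => z) y 0 A) : NA f := by
  obtain ⟨h1, h2, h3, h4⟩ := h
  have hp0 : (0 : ℂ) ∈ ball (0 : ℂ) 1 := mem_ball_self one_pos
  obtain ⟨ζ, hζ⟩ := exists_lin 0
  have hζat := isAt_lin hp0 hζ
  have hζpt := pt_lin hp0 hζ
  simp only [sub_zero] at hζ
  obtain ⟨Y, hY⟩ := exists_H hy
  obtain ⟨B, hB⟩ := exists_H (g := fun _ => (A : ℂ)) (differentiableOn_const _)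
  have hnA : ‖(A : ℂ)‖ = A := by simp [abs_of_nonneg hA]
  refine ⟨ζ, Y, B, hζpt, ?_, (cst_iff B).mpr ⟨_, hB⟩, ?_, ?_, ?_⟩
  · intro q hq
    obtain ⟨p, hat⟩ := hq.exists_isAt
    simpa [le_iff hat hat, hζ p hat.1] using h1 p hat.1
  · intro q hq hle
    obtain ⟨p, hat⟩ := hq.exists_isAt
    rw [le_iff hat hat, H.add_apply, ← two_mul, norm_mul, hζ p hat.1] at hle
    rw [le_iff hat hat, hY p hat.1, hB p hat.1, hnA]
    exact h2 p hat.1 (by simpa using hle)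
  · intro q hq
    obtain ⟨p, hat⟩ := hq.exists_isAt
    obtain ⟨p', hp', h5, h6⟩ := h3 p hat.1
    obtain ⟨q', hq', hat'⟩ := exists_pt hp'
    refine ⟨q', hq', ?_, ?_⟩
    · rwa [le_iff hat' hat, H.mul_apply, norm_mul, ← sq, hζ p hat.1, hζ p' hp']
    · rwa [le_iff hat hat', H.mul_apply, norm_mul, hB p' hp', hnA, hY p hat.1, hY p' hp']
  · intro q₀ hq₀
    obtain ⟨p₀, hat₀⟩ := hq₀.exists_isAt
    obtain ⟨G, hG, h5, p', hp', h6, h7⟩ := h4 p₀ hat₀.1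
    obtain ⟨q', hq', hat'⟩ := exists_pt hp'
    obtain ⟨G', hG'⟩ := exists_H hG
    refine ⟨G', fun q hq hle => ?_, q', hq', ?_, ?_⟩
    · obtain ⟨p, hat⟩ := hq.exists_isAt
      rw [le_iff hat hat₀, hζ p hat.1, hζ p₀ hat₀.1] at hle
      simpa [le_iff hat hat, hG' p hat.1] using h5 p hat.1 hle
    · rwa [le_iff hat' hat₀, hζ p' hp', hζ p₀ hat₀.1]
    · rwa [le_iff hζat hat', hG' 0 hp0, hY p' hp']

end Pool.Agent.Lib.MP_5f3cbe_lc
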